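import Pool.Agent.W367.KT.TameY
set_option autoImplicit false

/-!
Triviality of tame symbols on the curve `(1 - y ^ n) ∏ (1 - x/a_j) = 1`.
-/

namespace Pool.Agent.W367.KS

open scoped WithZero
open Pool.Agent.W367.KT

variable {F : Type*} [Field F] (v : Valuation F ℤᵐ⁰)

/-- the data: `h j = 1 - x / a j`, `u j = 1 - ζ ^ j y`, `(∏ h j) (1 - y ^ n) = 1` -/
structure ZData (F : Type*) [Field F] where
  m : ℕ
  n : ℕ
  hn : n ≠ 0
  x : Fˣ
  a : ℕ → Fˣ
  h : ℕ → Fˣ
  hh : ∀ j, (h j : F) = 1 - x / a j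
  y : Fˣ
  z : Fˣ
  hz : z ^ n = 1
  u : ℕ → Fˣ
  hu : ∀ j, (u j : F) = 1 - z ^ j * y
  hy : ((∏ j ∈ Finset.Icc 1 m, h j : Fˣ) : F) * (1 - (y : F) ^ n) = 1

namespace ZData

variable {v} (D : ZData F)

/-- the function `f` -/
noncomputable def f : Fˣ := ∏ j ∈ Finset.Icc 1 D.m, D.h j

/-- the function `x / (x - a k)` -/
noncomputable def A (k : ℕ) : Fˣ := D.x * (-(D.a k) * D.h k)⁻¹

/-- the function `(1 - ζ ^ j y) / (1 - y)` -/
noncomputable def B (j : ℕ) : Fˣ := D.u j * (D.u 0)⁻¹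

theorem hy' : (D.f : F) * (1 - (D.y : F) ^ D.n) = 1 := D.hy

theorem val_z : v (D.z : F) = 1 := by
  have h : v (D.z : F) ^ D.n = 1 := by
    rw [← map_pow, ← Units.val_pow_eq_pow_val, D.hz, Units.val_one, map_one]
  exact (pow_eq_one_iff.1 h).resolve_right D.hn

theorem val_zpow (j : ℕ) : v ((D.z : F) ^ j) = 1 := by
  rw [map_pow, D.val_z, one_pow]

theorem x_sub (k : ℕ) : ((-(D.a k) * D.h k : Fˣ) : F) = D.x - D.a k := by
  push_cast
  rw [D.hh]
  have := (D.a k).ne_zero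
  field_simp
  ring

theorem caseA (ha : ∀ j, v (D.a j : F) = 1) (hx : 1 < v (D.x : F)) (k : ℕ) : D.A k ∈ U1 v := by
  rw [mem_U1]
  have h0 : (D.x : F) - D.a k ≠ 0 := by
    rw [← D.x_sub k]; exact Units.ne_zero _
  have e : (D.A k : F) - 1 = D.a k / (D.x - D.a k) := by
    unfold A
    rw [Units.val_mul, Units.val_inv_eq_inv_val, D.x_sub k]
    field_simp
    ring
  have h1 : v ((D.x : F) - D.a k) = v (D.x : F) := Valuation.map_sub_eq_of_lt_left v (by rw [ha k]; exact hx)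
  rw [e, map_div₀, ha k, h1, one_div]
  exact inv_lt_one_of_one_lt₀ hx

theorem u_mul (j : ℕ) : (D.f : F) * ((D.u j : F) * ∑ i ∈ Finset.range D.n, ((D.z : F) ^ j * D.y) ^ i) = 1 := by
  have h1 : (D.u j : F) * ∑ i ∈ Finset.range D.n, ((D.z : F) ^ j * D.y) ^ i = 1 - (D.y : F) ^ D.n := by
    rw [D.hu, mul_comm, geom_sum_mul_neg, mul_pow, ← pow_mul, mul_comm j, pow_mul]
    have : (D.z : F) ^ D.n = 1 := by
      rw [← Units.val_pow_eq_pow_val, D.hz, Units.val_one]
    rw [this, one_pow, one_mul]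
  rw [h1, D.hy']

theorem h_le (ha : ∀ j, v (D.a j : F) = 1) (hx : v (D.x : F) ≤ 1) (j : ℕ) : v (D.h j : F) ≤ 1 := by
  rw [D.hh]
  refine Valuation.map_sub_le v (map_one v).le ?_
  rw [map_div₀, ha j, div_one]; exact hx

theorem f_le (ha : ∀ j, v (D.a j : F) = 1) (hx : v (D.x : F) ≤ 1) : v (D.f : F) ≤ 1 := by
  unfold f
  rw [Units.coe_prod, map_prod]
  exact Finset.prod_le_one' (fun j _ => D.h_le ha hx j)

theorem eq_one_of_mul {a b : ℤᵐ⁰} (ha : a ≤ 1) (hb : b ≤ 1) (h : a * b = 1) : a = 1 ∧ b = 1 := by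
  have h1 : a = 1 := by
    apply le_antisymm ha
    calc (1 : ℤᵐ⁰) = a * b := h.symm
      _ ≤ a * 1 := by gcongr
      _ = a := mul_one a
  refine ⟨h1, ?_⟩
  rwa [h1, one_mul] at h

theorem u_le (hy : v (D.y : F) ≤ 1) (j : ℕ) : v (D.u j : F) ≤ 1 := by
  rw [D.hu]
  refine Valuation.map_sub_le v (map_one v).le ?_
  rw [map_mul, D.val_zpow, one_mul]; exact hy

theorem u_eq_one (ha : ∀ j, v (D.a j : F) = 1) (hx : v (D.x : F) ≤ 1) (hy : v (D.y : F) ≤ 1) (j : ℕ) :
    v (D.u j : F) = 1 := by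
  have h := congrArg v (D.u_mul j)
  rw [map_mul, map_mul, map_one] at h
  have hS : v (∑ i ∈ Finset.range D.n, ((D.z : F) ^ j * D.y) ^ i) ≤ 1 := by
    apply Valuation.map_sum_le v
    intro i _
    rw [map_pow, map_mul, D.val_zpow, one_mul]
    exact pow_le_one₀ zero_le hy
  have h1 := eq_one_of_mul (D.f_le ha hx) (mul_le_one₀ (D.u_le hy j) zero_le hS) h
  exact (eq_one_of_mul (D.u_le hy j) hS h1.2).1

theorem h_eq_one (ha : ∀ j, v (D.a j : F) = 1) (hx : v (D.x : F) ≤ 1) (hy : v (D.y : F) ≤ 1) (k : ℕ)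
    (hk : k ∈ Finset.Icc 1 D.m) : v (D.h k : F) = 1 := by
  have h := congrArg v D.hy'
  rw [map_mul, map_one] at h
  have h2 : v (1 - (D.y : F) ^ D.n) ≤ 1 :=
    Valuation.map_sub_le v (map_one v).le (by rw [map_pow]; exact pow_le_one₀ zero_le hy)
  have h1 := (eq_one_of_mul (D.f_le ha hx) h2 h).1
  unfold f at h1
  rw [Units.coe_prod, map_prod, ← Finset.mul_prod_erase _ _ hk] at h1
  exact (eq_one_of_mul (D.h_le ha hx k) (Finset.prod_le_one' (fun j _ => D.h_le ha hx j)) h1).1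

theorem B_pow (hy : 1 < v (D.y : F)) (j : ℕ) : D.B j ^ D.n ∈ U1 v := by
  have h0 : (D.u 0 : F) ≠ 0 := Units.ne_zero _
  have hz0 : (D.z : F) ^ j ≠ 0 := pow_ne_zero _ (Units.ne_zero _)
  have hu0 : (D.u 0 : F) = 1 - D.y := by rw [D.hu]; ring
  have h1 : D.B j * (D.z ^ j)⁻¹ ∈ U1 v := by
    rw [mem_U1]
    have e : ((D.B j * (D.z ^ j)⁻¹ : Fˣ) : F) - 1 = (1 - (D.z : F) ^ j) / ((D.z : F) ^ j * (1 - D.y)) := by
      unfold B
      rw [hu0] at h0
      push_cast
      rw [hu0, D.hu]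
      field_simp
      ring
    have h2 : v (1 - (D.y : F)) = v (D.y : F) := Valuation.map_sub_eq_of_lt_right v (by rw [map_one]; exact hy)
    have h3 : v (1 - (D.z : F) ^ j) ≤ 1 := Valuation.map_sub_le v (map_one v).le (D.val_zpow j).le
    rw [e, map_div₀, map_mul, D.val_zpow, one_mul, h2]
    calc v (1 - (D.z : F) ^ j) / v (D.y : F) ≤ 1 / v (D.y : F) := div_le_div_of_nonneg_right h3 zero_le
      _ < 1 := by rw [one_div]; exact inv_lt_one_of_one_lt₀ hy
  have h4 : D.B j ^ D.n = (D.B j * (D.z ^ j)⁻¹) ^ D.n := by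
    rw [mul_pow, inv_pow, ← pow_mul, mul_comm j, pow_mul, D.hz, one_pow, inv_one, mul_one]
  rw [h4]
  exact Subgroup.pow_mem _ h1 _

theorem ord_B (hy : 1 < v (D.y : F)) (j : ℕ) : ord v (D.B j) = 0 := by
  have h := ord_of_mem_U1 v (D.B_pow hy j)
  rw [ord_pow] at h
  have hn : (D.n : ℤ) ≠ 0 := by exact_mod_cast D.hn
  exact (mul_eq_zero.1 h).resolve_left hn

/-- The tame symbols of `{x / (x - a k), (1 - ζ ^ j y) / (1 - y)}` -/
theorem tame (ha : ∀ j, v (D.a j : F) = 1) (k : ℕ) (hk : k ∈ Finset.Icc 1 D.m) (j : ℕ) :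
    tameElt v (D.A k) (D.B j) ^ D.n ∈ U1 v := by
  by_cases hx : 1 < v (D.x : F)
  · have hA := D.caseA ha hx k
    apply Subgroup.pow_mem
    unfold tameElt
    rw [ord_of_mem_U1 v hA]
    simp only [zero_mul, zpow_zero, one_mul, neg_zero, mul_one]
    exact Subgroup.zpow_mem _ hA _
  · have hx' : v (D.x : F) ≤ 1 := not_lt.1 hx
    by_cases hy : 1 < v (D.y : F)
    · exact YData.tame_of_pow (D.ord_B hy j) (Or.inr (D.B_pow hy j))
    · have hy' : v (D.y : F) ≤ 1 := not_lt.1 hy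
      have hu := fun j => (ord_eq_zero_iff v _).2 (D.u_eq_one ha hx' hy' j)
      have hB : ord v (D.B j) = 0 := by
        unfold B
        rw [ord_mul, ord_inv, hu, hu, neg_zero, add_zero]
      apply YData.tame_of_pow hB
      rcases lt_or_eq_of_le hx' with h | h
      · right
        apply Subgroup.pow_mem
        have hhU : ∀ j, D.h j ∈ U1 v := by
          intro j
          rw [mem_U1, D.hh]
          have : (1 : F) - D.x / D.a j - 1 = -(D.x / D.a j) := by ring
          rw [this, Valuation.map_neg, map_div₀, ha j, div_one]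
          exact h
        have hf : D.f ∈ U1 v := Subgroup.prod_mem _ (fun j _ => hhU j)
        have hf1 : v (D.f : F) = 1 := (ord_eq_zero_iff v _).1 (ord_of_mem_U1 v hf)
        rw [mem_U1] at hf
        have hyn : v (D.y : F) < 1 := by
          have e : (D.f : F) * (D.y : F) ^ D.n = D.f - 1 := by
            linear_combination -D.hy'
          have e2 := congrArg v e
          rw [map_mul, hf1, one_mul, map_pow] at e2
          rw [← e2] at hf
          exact (pow_lt_one_iff D.hn).1 hf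
        have huU : ∀ j, D.u j ∈ U1 v := by
          intro j
          rw [mem_U1, D.hu]
          have : (1 : F) - (D.z : F) ^ j * D.y - 1 = -((D.z : F) ^ j * D.y) := by ring
          rw [this, Valuation.map_neg, map_mul, D.val_zpow, one_mul]
          exact hyn
        unfold B
        exact Subgroup.mul_mem _ (huU j) (Subgroup.inv_mem _ (huU 0))
      · left
        unfold A
        rw [ord_mul, ord_inv, ord_mul, ord_neg, (ord_eq_zero_iff v _).2 (ha k),
          (ord_eq_zero_iff v _).2 (D.h_eq_one ha hx' hy' k hk), (ord_eq_zero_iff v _).2 h]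
        simp

end ZData

end Pool.Agent.W367.KS
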