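import Pool.Agent.W367.KT.Curve
import Pool.Agent.W367.KS.TameZ
set_option autoImplicit false

/-!
The curves `f(x) (1 - y ^ n) = 1` and their function fields.
-/

namespace Pool.Agent.W367.KS

open Set MeasureTheory intervalIntegral Polynomial
open scoped TensorProduct WithZero Interval
open Pool.Agent.W367.KT

section Irr

open IntermediateField in
theorem irreducible_transfer {L : Type*} [Field L] {n : ℕ} (hn : n ≠ 0) {c t : L} (hc : c ≠ 0) (ht : t ≠ 0)
    (h : Irreducible (X ^ n - C (t ^ n / c) : L[X])) : Irreducible (X ^ n - C c : L[X]) := by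
  obtain ⟨α, hα⟩ := IsAlgClosed.exists_pow_nat_eq (k := AlgebraicClosure L)
    (algebraMap L (AlgebraicClosure L) c) (Nat.pos_of_ne_zero hn)
  have hα0 : α ≠ 0 := by
    rintro rfl
    rw [zero_pow hn] at hα
    exact hc ((map_eq_zero _).1 hα.symm)
  set β : AlgebraicClosure L := algebraMap L _ t / α with hβdef
  have hβ : β ^ n = algebraMap L _ (t ^ n / c) := by
    rw [hβdef, div_pow, hα, map_div₀, map_pow]
  have hβi : IsIntegral L β := Algebra.IsIntegral.isIntegral β
  have hαi : IsIntegral L α := Algebra.IsIntegral.isIntegral α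
  have m1 : X ^ n - C (t ^ n / c) = minpoly L β :=
    minpoly.eq_of_irreducible_of_monic h (by simp [hβ]) (monic_X_pow_sub_C _ hn)
  have m2 : minpoly L α ∣ X ^ n - C c := minpoly.dvd L α (by simp [hα])
  have d1 : Module.finrank L L⟮β⟯ = n := by
    rw [IntermediateField.adjoin.finrank hβi, ← m1, natDegree_X_pow_sub_C]
  have d2 : Module.finrank L L⟮α⟯ = (minpoly L α).natDegree := IntermediateField.adjoin.finrank hαi
  have hle : L⟮β⟯ ≤ L⟮α⟯ := by
    rw [IntermediateField.adjoin_simple_le_iff]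
    exact div_mem (IntermediateField.algebraMap_mem _ t) (IntermediateField.mem_adjoin_simple_self L α)
  have hfd : FiniteDimensional L L⟮α⟯ := IntermediateField.adjoin.finiteDimensional hαi
  have d3 : Module.finrank L L⟮β⟯ ≤ Module.finrank L L⟮α⟯ :=
    LinearMap.finrank_le_finrank_of_injective (f := (IntermediateField.inclusion hle).toLinearMap)
      (IntermediateField.inclusion hle).injective
  have heq : minpoly L α = X ^ n - C c := by
    refine (eq_of_monic_of_dvd_of_natDegree_le (minpoly.monic hαi) (monic_X_pow_sub_C _ hn) m2 ?_).symm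
    rw [natDegree_X_pow_sub_C, ← d2, ← d1]
    exact d3
  rw [← heq]
  exact minpoly.irreducible hαi

variable {K : Type*} [Field K]

theorem irreducible_eis {f : K[X]} {n : ℕ} (hn : n ≠ 0) {l : K[X]} (hl : Prime l) (h1 : l ∣ f)
    (h2 : ¬ l ^ 2 ∣ f) : Irreducible (X ^ n - C (f * (f - 1) ^ (n - 1)) : K[X][X]) := by
  have hl1 : ¬ l ∣ f - 1 := by
    intro h
    have : l ∣ 1 := by
      have := dvd_sub h1 h
      rwa [sub_sub_cancel] at this
    exact hl.not_isUnit (isUnit_of_dvd_one this)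
  have hne : l ∣ f * (f - 1) ^ (n - 1) := h1.mul_right _
  have hne2 : ¬ l ^ 2 ∣ f * (f - 1) ^ (n - 1) := by
    intro h
    apply h2
    have hcop : IsCoprime (l ^ 2) ((f - 1) ^ (n - 1)) := by
      apply IsCoprime.pow
      exact (Irreducible.coprime_iff_not_dvd hl.irreducible).2 hl1
    exact hcop.dvd_of_dvd_mul_right h
  have hE : IsEisensteinAt (X ^ n - C (f * (f - 1) ^ (n - 1)) : K[X][X]) (Ideal.span {l}) := by
    constructor
    · rw [(monic_X_pow_sub_C _ hn).leadingCoeff, Ideal.mem_span_singleton]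
      intro h
      exact hl.not_isUnit (isUnit_of_dvd_one h)
    · intro k hk
      rw [natDegree_X_pow_sub_C] at hk
      rw [coeff_sub, coeff_X_pow, if_neg hk.ne, zero_sub, coeff_C]
      split_ifs
      · rw [Ideal.mem_span_singleton]
        exact (dvd_neg).2 hne
      · rw [neg_zero]; exact Ideal.zero_mem _
    · rw [coeff_sub, coeff_X_pow, if_neg (Ne.symm hn), zero_sub, coeff_C_zero, Ideal.span_singleton_pow,
        Ideal.mem_span_singleton]
      intro h
      exact hne2 ((dvd_neg).1 h)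
  apply hE.irreducible
  · rw [Ideal.span_singleton_prime hl.ne_zero]; exact hl
  · exact (monic_X_pow_sub_C _ hn).isPrimitive
  · rw [natDegree_X_pow_sub_C]; exact Nat.pos_of_ne_zero hn

/-- `Y ^ n - (f - 1) / f` over the rational function field -/
noncomputable def spoly (f : K[X]) (n : ℕ) : (RatFunc K)[X] :=
  X ^ n - C (algebraMap K[X] (RatFunc K) (f - 1) / algebraMap K[X] (RatFunc K) f)

theorem irreducible_spoly {f : K[X]} {n : ℕ} (hn : n ≠ 0) {l : K[X]} (hl : Prime l) (h1 : l ∣ f)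
    (h2 : ¬ l ^ 2 ∣ f) (hf0 : f ≠ 0) : Irreducible (spoly f n) := by
  have hf1 : f - 1 ≠ 0 := by
    intro h
    apply hl.not_isUnit
    rw [sub_eq_zero] at h
    rw [h] at h1
    exact isUnit_of_dvd_one h1
  have hi : ∀ p : K[X], p ≠ 0 → algebraMap K[X] (RatFunc K) p ≠ 0 := by
    intro p hp h
    apply hp
    apply FaithfulSMul.algebraMap_injective K[X] (RatFunc K)
    rw [h, map_zero]
  unfold spoly
  apply irreducible_transfer hn (div_ne_zero (hi _ hf1) (hi _ hf0)) (hi _ hf1)
  have h3 := (Monic.irreducible_iff_irreducible_map_fraction_map (K := RatFunc K)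
    (monic_X_pow_sub_C (f * (f - 1) ^ (n - 1)) hn)).1 (irreducible_eis hn hl h1 h2)
  rw [Polynomial.map_sub, Polynomial.map_pow, map_X, map_C] at h3
  have e : algebraMap K[X] (RatFunc K) (f - 1) ^ n /
      (algebraMap K[X] (RatFunc K) (f - 1) / algebraMap K[X] (RatFunc K) f) =
      algebraMap K[X] (RatFunc K) (f * (f - 1) ^ (n - 1)) := by
    have h4 := hi _ hf1
    have h5 := hi _ hf0
    rw [map_mul, map_pow]
    obtain ⟨k, rfl⟩ := Nat.exists_eq_succ_of_ne_zero hn
    rw [Nat.succ_sub_one, pow_succ]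
    field_simp
  rw [e]
  exact h3

theorem spoly_monic (f : K[X]) {n : ℕ} (hn : n ≠ 0) : (spoly f n).Monic := monic_X_pow_sub_C _ hn

/-- `∏ (1 - x/a_j)` with distinct `a_j` satisfies the irreducibility criterion -/
theorem irreducible_spoly_fpoly (a : ℕ → Kˣ) {m n : ℕ} (hm : 1 ≤ m) (hn : n ≠ 0)
    (ha : ∀ j ∈ Finset.Icc 1 m, j ≠ 1 → a j ≠ a 1) : Irreducible (spoly (fpoly a m) n) := by
  have hfac : ∀ j, (1 - C (((a j)⁻¹ : Kˣ) : K) * X : K[X]) = C (-(((a j)⁻¹ : Kˣ) : K)) * (X - C (a j : K)) := by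
    intro j
    have h1 : (C (((a j)⁻¹ : Kˣ) : K) : K[X]) * C ((a j : Kˣ) : K) = 1 := by
      rw [← C_mul, Units.inv_mul, C_1]
    rw [map_neg]
    linear_combination -h1
  have hprime : Prime (1 - C (((a 1)⁻¹ : Kˣ) : K) * X : K[X]) := by
    rw [hfac]
    have hu : IsUnit (C (-(((a 1)⁻¹ : Kˣ) : K)) : K[X]) := by
      rw [isUnit_C]
      exact (Units.isUnit _).neg
    exact (Associated.prime_iff (associated_unit_mul_left _ _ hu)).2 (prime_X_sub_C _)
  have h1m : (1 : ℕ) ∈ Finset.Icc 1 m := Finset.mem_Icc.2 ⟨le_rfl, hm⟩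
  have hdvd : (1 - C (((a 1)⁻¹ : Kˣ) : K) * X : K[X]) ∣ fpoly a m := Finset.dvd_prod_of_mem _ h1m
  apply irreducible_spoly hn hprime hdvd _ (fpoly_ne_zero a m)
  intro h
  unfold fpoly at h
  rw [← Finset.mul_prod_erase _ _ h1m, sq] at h
  have h2 := (mul_dvd_mul_iff_left hprime.ne_zero).1 h
  obtain ⟨j, hj, hj2⟩ := (Prime.dvd_finsetProd_iff hprime _).1 h2
  rw [Finset.mem_erase] at hj
  apply ha j hj.2 hj.1
  obtain ⟨q, hq⟩ := hj2
  have h3 := congrArg (eval (a 1 : K)) hq
  rw [eval_mul] at h3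
  simp only [eval_sub, eval_one, eval_mul, eval_C, eval_X, Units.inv_mul, sub_self, zero_mul] at h3
  rw [sub_eq_zero] at h3
  apply Units.ext
  have h4 := congrArg (fun w => (a j : K) * w) h3
  simp only [mul_one] at h4
  rw [← mul_assoc, Units.mul_inv, one_mul] at h4
  exact h4

end Irr

section Defs

variable {K : Type*} [Field K]

/-- The function field of the curve `f(x) (1 - y ^ n) = 1`, `f = ∏_{j=1}^m (1 - x/a_j)`. -/
abbrev FS (a : ℕ → Kˣ) (m n : ℕ) : Type _ := AdjoinRoot (spoly (fpoly a m) n)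

variable (a : ℕ → Kˣ) (m n : ℕ) [hI : Fact (Irreducible (spoly (fpoly a m) n))]

/-- polynomials in `x` as functions on the curve -/
noncomputable def iotaS : K[X] →+* FS a m n :=
  (AdjoinRoot.of (spoly (fpoly a m) n)).comp (algebraMap K[X] (RatFunc K))

theorem iotaS_injective : Function.Injective (iotaS a m n) := by
  unfold iotaS
  rw [RingHom.coe_comp]
  exact (RingHom.injective (AdjoinRoot.of (spoly (fpoly a m) n))).comp
    (FaithfulSMul.algebraMap_injective K[X] (RatFunc K))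

theorem iotaS_ne_zero {p : K[X]} (hp : p ≠ 0) : iotaS a m n p ≠ 0 := by
  intro h
  apply hp
  apply iotaS_injective a m n
  rw [h, map_zero]

/-- a nonzero polynomial as a unit of the function field -/
noncomputable def iuS (p : K[X]) (hp : p ≠ 0) : (FS a m n)ˣ :=
  Units.mk0 (iotaS a m n p) (iotaS_ne_zero a m n hp)

@[simp] theorem coe_iuS (p : K[X]) (hp : p ≠ 0) : (iuS a m n p hp : FS a m n) = iotaS a m n p := rfl

/-- the function `x` -/
noncomputable def xS : (FS a m n)ˣ := iuS a m n X X_ne_zero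

/-- constants -/
noncomputable def cS : Kˣ →* (FS a m n)ˣ := Units.map ((iotaS a m n).comp C : K →+* FS a m n).toMonoidHom

theorem coe_cS (c : Kˣ) : (cS a m n c : FS a m n) = iotaS a m n (C (c : K)) := rfl

/-- the functions `1 - x/a_j` -/
noncomputable def hS (j : ℕ) : (FS a m n)ˣ :=
  iuS a m n (1 - C (((a j)⁻¹ : Kˣ) : K) * X) (factor_ne_zero _)

variable {m}

theorem eval₂_spoly {S : Type*} [Field S] (i : RatFunc K →+* S) (f : K[X]) (n : ℕ) (w : S) :
    (spoly f n).eval₂ i w = w ^ n - i (algebraMap K[X] (RatFunc K) (f - 1)) / i (algebraMap K[X] (RatFunc K) f) := by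
  unfold spoly
  simp only [eval₂_sub, eval₂_pow, eval₂_X, eval₂_C, map_div₀]

theorem rootS_eq : iotaS a m n (fpoly a m) *
    (1 - (AdjoinRoot.root (spoly (fpoly a m) n)) ^ n) = 1 := by
  have h := AdjoinRoot.eval₂_root (spoly (fpoly a m) n)
  rw [eval₂_spoly] at h
  change _ ^ n - iotaS a m n (fpoly a m - 1) / iotaS a m n (fpoly a m) = 0 at h
  have h0 : iotaS a m n (fpoly a m) ≠ 0 := iotaS_ne_zero a m n (fpoly_ne_zero a m)
  rw [sub_eq_zero, eq_div_iff h0, map_sub, map_one] at h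
  linear_combination -h

theorem rootS_ne_zero (hm : m ≠ 0) (hn : n ≠ 0) : AdjoinRoot.root (spoly (fpoly a m) n) ≠ 0 := by
  intro h
  have h1 := rootS_eq (m := m) a n
  rw [h, zero_pow hn, sub_zero, mul_one, ← map_one (iotaS a m n)] at h1
  have h2 := congrArg natDegree (iotaS_injective a m n h1)
  rw [natDegree_fpoly, natDegree_one] at h2
  exact hm h2

/-- the function `y` -/
noncomputable def yS (hm : m ≠ 0) (hn : n ≠ 0) : (FS a m n)ˣ :=
  Units.mk0 (AdjoinRoot.root (spoly (fpoly a m) n)) (rootS_ne_zero a n hm hn)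

theorem uS_ne_zero (hm : m ≠ 0) (hn : n ≠ 0) {z : Kˣ} (hz : z ^ n = 1) (j : ℕ) :
    1 - (cS a m n z : FS a m n) ^ j * (yS a n hm hn : FS a m n) ≠ 0 := by
  intro h
  have h1 := rootS_eq (m := m) a n
  change _ * (1 - (yS a n hm hn : FS a m n) ^ n) = 1 at h1
  have h2 : ((cS a m n z : FS a m n) ^ j * (yS a n hm hn : FS a m n)) ^ n = 1 := by
    rw [← sub_eq_zero.1 h, one_pow]
  have h3 : (cS a m n z : FS a m n) ^ n = 1 := by
    rw [← Units.val_pow_eq_pow_val, ← map_pow, hz, map_one, Units.val_one]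
  rw [mul_pow, ← pow_mul, mul_comm j, pow_mul, h3, one_pow, one_mul] at h2
  rw [h2, sub_self, mul_zero] at h1
  exact zero_ne_one h1

/-- the functions `1 - ζ ^ j y` -/
noncomputable def uS (hm : m ≠ 0) (hn : n ≠ 0) {z : Kˣ} (hz : z ^ n = 1) (j : ℕ) : (FS a m n)ˣ :=
  Units.mk0 _ (uS_ne_zero a n hm hn hz j)

/-- the abstract data -/
noncomputable def zData (hm : m ≠ 0) (hn : n ≠ 0) {z : Kˣ} (hz : z ^ n = 1) : ZData (FS a m n) where
  m := m
  n := n
  hn := hn
  x := xS a m n
  a j := cS a m n (a j)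
  h := hS a m n
  hh j := by
    show iotaS a m n (1 - C (((a j)⁻¹ : Kˣ) : K) * X) = 1 - iotaS a m n X / iotaS a m n (C ((a j : Kˣ) : K))
    rw [map_sub, map_one, map_mul, Units.val_inv_eq_inv_val, mul_comm, div_eq_mul_inv]
    congr 2
    apply eq_inv_of_mul_eq_one_left
    rw [← map_mul, ← C_mul, inv_mul_cancel₀ (a j).ne_zero, C_1, map_one]
  y := yS a n hm hn
  z := cS a m n z
  hz := by rw [← map_pow, hz, map_one]
  u := uS a n hm hn hz
  hu j := rfl
  hy := by
    have h : ((∏ j ∈ Finset.Icc 1 m, hS a m n j : (FS a m n)ˣ) : FS a m n) = iotaS a m n (fpoly a m) := by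
      have e : iotaS a m n (fpoly a m) =
          ∏ j ∈ Finset.Icc 1 m, iotaS a m n (1 - C (((a j)⁻¹ : Kˣ) : K) * X) :=
        map_prod (iotaS a m n) _ _
      rw [Units.coe_prod, e]
      rfl
    rw [h]
    exact rootS_eq a n

end Defs

end Pool.Agent.W367.KS
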