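import Pool.Agent.W367.KT.Loops
import Pool.Agent.W367.KS.SCurve
set_option autoImplicit false

/-!
Closed paths on the curves `f(x) (1 - y ^ n) = 1`.
-/

namespace Pool.Agent.W367.KS

open Set MeasureTheory intervalIntegral Polynomial
open scoped TensorProduct WithZero Interval
open Pool.Agent.W367.KT

/-- Branch of `r ^ n = 1 - 1/φ` for large `φ`. -/
theorem exists_root_branch {R : ℝ} {φ : ℝ → ℂ} {n : ℕ} (hn : n ≠ 0) {L : ℝ} (hL : 8 ≤ L)
    (hφ : ContDiff ℝ 1 φ) (h01 : φ 0 = φ 1) (hb : ∀ t, L ≤ ‖φ t‖) :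
    ∃ r : ℝ → ℂ, ContDiff ℝ 1 r ∧ r 0 = r 1 ∧ (∀ t, φ t * (1 - r t ^ n) = 1) ∧ (∀ t, ‖r t - 1‖ ≤ 3 / L) ∧
      Rep' R (fun t => ∑ i ∈ Finset.range n, r t ^ i) n 0 1 := by
  have hL0 : 0 < L := by linarith
  have h0 : ∀ t, φ t ≠ 0 := fun t h => by
    have := hb t
    rw [h, norm_zero] at this
    linarith
  have hn0 : (0 : ℝ) < n := by exact_mod_cast Nat.pos_of_ne_zero hn
  have hnC : (n : ℂ) ≠ 0 := by exact_mod_cast hn
  have hsmall : ∀ t, ‖-(φ t)⁻¹‖ ≤ 1 / L := by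
    intro t
    rw [norm_neg, norm_inv, ← one_div]
    exact one_div_le_one_div_of_le hL0 (hb t)
  have hL8 : 1 / L ≤ 1 / 8 := one_div_le_one_div_of_le (by norm_num) hL
  have hs : ∀ t, 1 - (φ t)⁻¹ ∈ Complex.slitPlane := fun t => by
    rw [sub_eq_add_neg]
    exact slit_of_norm ((hsmall t).trans (by linarith))
  have hc1 : ContDiff ℝ 1 (fun t => 1 - (φ t)⁻¹) := contDiff_const.sub (hφ.inv h0)
  have hc2 : ContDiff ℝ 1 (fun t => Complex.log (1 - (φ t)⁻¹)) := by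
    rw [contDiff_iff_contDiffAt]
    intro t
    exact (((Complex.contDiffAt_log (hs t)).restrict_scalars ℝ).comp t (hc1.contDiffAt))
  set lg : ℝ → ℂ := fun t => Complex.log (1 - (φ t)⁻¹) / n with hlg
  have hlgc : ContDiff ℝ 1 lg := hc2.div_const (n : ℂ)
  have hlog : ∀ t, ‖Complex.log (1 - (φ t)⁻¹)‖ ≤ 3 / 2 / L := by
    intro t
    have := Complex.norm_log_one_add_half_le_self (z := -(φ t)⁻¹) ((hsmall t).trans (by linarith))
    rw [← sub_eq_add_neg] at this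
    calc ‖Complex.log (1 - (φ t)⁻¹)‖ ≤ 3 / 2 * ‖-(φ t)⁻¹‖ := this
      _ ≤ 3 / 2 * (1 / L) := by gcongr; exact hsmall t
      _ = 3 / 2 / L := by ring
  have h316 : 3 / 2 / L ≤ 3 / 16 := by
    rw [div_le_iff₀ hL0]; linarith
  -- powers
  have hpow : ∀ t (i : ℕ), i ≤ n → ‖Complex.exp (i * lg t) - 1‖ ≤ 3 / L := by
    intro t i hi
    have h1 : ‖(i : ℂ) * lg t‖ ≤ 3 / 2 / L := by
      have e : (i : ℂ) * lg t = (i / n : ℂ) * Complex.log (1 - (φ t)⁻¹) := by
        simp only [hlg]; ring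
      rw [e, norm_mul]
      have h2 : ‖(i / n : ℂ)‖ ≤ 1 := by
        rw [norm_div, Complex.norm_natCast, Complex.norm_natCast, div_le_one hn0]
        exact_mod_cast hi
      calc ‖(i / n : ℂ)‖ * ‖Complex.log (1 - (φ t)⁻¹)‖ ≤ 1 * (3 / 2 / L) :=
            mul_le_mul h2 (hlog t) (norm_nonneg _) zero_le_one
        _ = 3 / 2 / L := one_mul _
    have h3 := Complex.norm_exp_sub_one_le (x := (i : ℂ) * lg t) (by linarith)
    calc ‖Complex.exp (i * lg t) - 1‖ ≤ 2 * ‖(i : ℂ) * lg t‖ := h3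
      _ ≤ 2 * (3 / 2 / L) := by gcongr
      _ = 3 / L := by ring
  have hr : ContDiff ℝ 1 (fun t => Complex.exp (lg t)) := hlgc.cexp
  have hr01 : Complex.exp (lg 0) = Complex.exp (lg 1) := by
    simp only [hlg]; rw [h01]
  have hrpow : ∀ t (i : ℕ), Complex.exp (lg t) ^ i = Complex.exp (i * lg t) := by
    intro t i
    rw [Complex.exp_nat_mul]
  have hS : ContDiff ℝ 1 (fun t => (∑ i ∈ Finset.range n, Complex.exp (lg t) ^ i) / n) := by
    apply ContDiff.div_const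
    apply ContDiff.sum
    intro i _
    exact hr.pow i
  refine ⟨fun t => Complex.exp (lg t), hr, hr01, ?_, ?_, ?_⟩
  · intro t
    dsimp only
    rw [hrpow]
    have : (n : ℂ) * lg t = Complex.log (1 - (φ t)⁻¹) := by
      simp only [hlg]; field_simp
    rw [this, Complex.exp_log (Complex.slitPlane_ne_zero (hs t))]
    have := h0 t
    field_simp
    ring
  · intro t
    have := hpow t 1 (Nat.one_le_iff_ne_zero.2 hn)
    simpa using this
  · have h3L : 3 / L ≤ 3 / 8 := by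
      rw [div_le_iff₀ hL0]; linarith
    have hnear := Rep'.near_one (R := R) hS (by rw [hr01]) (δ := 3 / L) (by linarith) (by
      intro t
      have e : (∑ i ∈ Finset.range n, Complex.exp (lg t) ^ i) / n - 1 =
          (∑ i ∈ Finset.range n, (Complex.exp (lg t) ^ i - 1)) / n := by
        rw [Finset.sum_sub_distrib, Finset.sum_const, Finset.card_range, sub_div, nsmul_eq_mul, mul_one,
          div_self hnC]
      rw [e, norm_div, Complex.norm_natCast, div_le_iff₀ hn0]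
      calc ‖∑ i ∈ Finset.range n, (Complex.exp (lg t) ^ i - 1)‖
          ≤ ∑ i ∈ Finset.range n, ‖Complex.exp (lg t) ^ i - 1‖ := norm_sum_le _ _
        _ ≤ ∑ i ∈ Finset.range n, 3 / L := by
            apply Finset.sum_le_sum
            intro i hi
            rw [hrpow]
            exact hpow t i (Finset.mem_range.1 hi).le
        _ = 3 / L * n := by rw [Finset.sum_const, Finset.card_range, nsmul_eq_mul]; ring)
    obtain ⟨α, k1, k2, k3, k4⟩ := hnear
    refine ⟨α, k1, k2, fun t => ?_, fun t => (k4 t).trans (by linarith)⟩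
    have := k3 t
    simp only [one_mul, zpow_zero] at this
    rw [div_eq_iff hnC] at this
    simp only [zpow_zero, mul_one]
    rw [this]; ring

theorem exists_kappa (n : ℕ) (hn : n ≠ 0) : ∃ κ : ℝ, 0 < κ ∧ ∀ w : ℂ, w ^ n = 1 → w ≠ 1 → κ ≤ ‖1 - w‖ := by
  set s : Finset ℂ := (nthRoots n (1 : ℂ)).toFinset.erase 1 with hs
  have hmem : ∀ w : ℂ, w ^ n = 1 → w ≠ 1 → w ∈ s := by
    intro w hw hw1
    rw [hs, Finset.mem_erase, Multiset.mem_toFinset, mem_nthRoots (Nat.pos_of_ne_zero hn)]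
    exact ⟨hw1, hw⟩
  rcases s.eq_empty_or_nonempty with h | h
  · refine ⟨1, one_pos, fun w hw hw1 => ?_⟩
    have := hmem w hw hw1
    rw [h] at this
    exact absurd this (Finset.notMem_empty w)
  · obtain ⟨w0, hw0, hmin⟩ := s.exists_min_image (fun w => ‖1 - w‖) h
    refine ⟨‖1 - w0‖, ?_, fun w hw hw1 => hmin w (hmem w hw hw1)⟩
    rw [norm_pos_iff, sub_ne_zero]
    rw [hs, Finset.mem_erase] at hw0
    exact Ne.symm hw0.1

variable {K : Type*} [Field K] [NumberField K] (σ : K →+* ℂ) (a : ℕ → Kˣ) (m : ℕ)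

theorem norm_f_ge' {R : ℝ} (hR : 0 < R) (J : Finset ℕ) (hJn : J.Nonempty) {ρ L : ℝ} (hL : 2 ≤ L)
    (hρ : L * Real.exp m ≤ ρ) (h1 : ∀ j ∈ J, ρ * ‖σ (a j)‖ ≤ R)
    (h2 : ∀ j ∈ Finset.Icc 1 m, j ∉ J → ρ * R ≤ ‖σ (a j)‖) (hJ : J ⊆ Finset.Icc 1 m) (t : ℝ) :
    L ≤ ‖(fpoly a m).eval₂ σ (circ R t)‖ := by
  have hρ4 : 2 ≤ ρ := by
    have : 1 ≤ Real.exp m := Real.one_le_exp (by positivity)
    nlinarith
  have hm0 : NeZero m := by
    rcases Nat.eq_zero_or_pos m with h | h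
    · subst h
      obtain ⟨j, hj⟩ := hJn
      have := hJ hj
      simp at this
    · exact ⟨h.ne'⟩
  have hrep : Rep R (fun t => (fpoly a m).eval₂ σ (circ R t)) (cJ σ a m J) J.card m (m * (2 * Real.pi)) :=
    rep_f σ a m hR J (fun j hj => (mul_le_mul_of_nonneg_right hρ4 (norm_nonneg _)).trans (h1 j hj))
        (fun j hj hj' => (mul_le_mul_of_nonneg_right hρ4 hR.le).trans (h2 j hj hj')) hJ
  obtain ⟨α, k1, k2, k3, k4, k5⟩ := hrep
  have k3' := k3 t
  dsimp only at k3'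
  rw [k3', norm_mul, norm_mul, norm_zpow, norm_circ hR, norm_cJ σ a m J hJ, zpow_natCast,
    ← Finset.prod_const, ← Finset.prod_mul_distrib, Complex.norm_exp]
  have h3 : ∀ j ∈ J, ρ ≤ ‖σ (a j)‖⁻¹ * R := by
    intro j hj
    have hp := norm_pos_iff.2 (sigma_ne σ (a j))
    rw [inv_mul_eq_div, le_div_iff₀ hp]
    exact h1 j hj
  have h4 : ρ ≤ ∏ j ∈ J, ‖σ (a j)‖⁻¹ * R := by
    calc ρ = ρ ^ 1 := (pow_one ρ).symm
      _ ≤ ρ ^ J.card := pow_le_pow_right₀ (by linarith) (Finset.card_pos.2 hJn)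
      _ = ∏ j ∈ J, ρ := by rw [Finset.prod_const]
      _ ≤ _ := Finset.prod_le_prod (fun _ _ => by linarith) h3
  have h5 : Real.exp (-m) ≤ Real.exp (α t).re := by
    apply Real.exp_le_exp.2
    have := (Complex.abs_re_le_norm (α t)).trans (k4 t)
    linarith [neg_abs_le (α t).re]
  calc L = L * Real.exp m * Real.exp (-m) := by
        rw [mul_assoc, ← Real.exp_add]; simp
    _ ≤ ρ * Real.exp (-m) := by gcongr
    _ ≤ (∏ j ∈ J, ‖σ (a j)‖⁻¹ * R) * Real.exp (α t).re := by gcongr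

/-- existence of the closed paths -/
theorem exists_loopS {m n : ℕ} (hm : m ≠ 0) (hn : n ≠ 0) [hI : Fact (Irreducible (spoly (fpoly a m) n))]
    {R : ℝ} (hR : 0 < R) (hT : Transcendental ℚ R) (J : Finset ℕ) (hJn : J.Nonempty)
    {ρ L : ℝ} (hL : 8 ≤ L) (hρ : L * Real.exp m ≤ ρ)
    (h1 : ∀ j ∈ J, ρ * ‖σ (a j)‖ ≤ R)
    (h2 : ∀ j ∈ Finset.Icc 1 m, j ∉ J → ρ * R ≤ ‖σ (a j)‖) (hJ : J ⊆ Finset.Icc 1 m)
    (η : ℂ) (hη : η ^ n = 1) :
    ∃ γ : Loop (FS a m n), (∀ (p : K[X]) (t : ℝ), γ.e t (iotaS a m n p) = p.eval₂ σ (circ R t)) ∧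
      ∃ r : ℝ → ℂ, ContDiff ℝ 1 r ∧ r 0 = r 1 ∧ (∀ t, γ.e t (yS a n hm hn : FS a m n) = η * r t) ∧
        (∀ t, ‖r t - 1‖ ≤ 3 / L) ∧
        Rep' R (fun t => 1 - r t) ((cJ σ a m J)⁻¹ * (n : ℂ)⁻¹) (-J.card) (m + 1) := by
  have hm0 : NeZero m := ⟨hm⟩
  have hexp : 1 ≤ Real.exp m := Real.one_le_exp (by positivity)
  have hρ4 : 2 ≤ ρ := by nlinarith
  have hf := rep_f σ a m hR J
    (fun j hj => (mul_le_mul_of_nonneg_right hρ4 (norm_nonneg _)).trans (h1 j hj))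
    (fun j hj hj' => (mul_le_mul_of_nonneg_right hρ4 hR.le).trans (h2 j hj hj')) hJ
  have hfc : ContDiff ℝ 1 (fun t => (fpoly a m).eval₂ σ (circ R t)) := by
    simp only [Polynomial.eval₂_eq_sum_range]
    apply ContDiff.sum
    intro i _
    exact contDiff_const.mul ((contDiff_circ R).pow i)
  have hfL := norm_f_ge' σ a m hR J hJn (by linarith) hρ h1 h2 hJ
  have hf0 : ∀ t, (fpoly a m).eval₂ σ (circ R t) ≠ 0 := by
    intro t h
    have := hfL t
    rw [h, norm_zero] at this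
    linarith
  obtain ⟨r, hr1, hr2, hr3, hr4, hr5⟩ := exists_root_branch (R := R) hn hL hfc (by rw [circ_closed]) hfL
  have hz : ∀ t, Transcendental ℚ (circ R t) := transcendental_circ hR hT
  have hw : ∀ t, (spoly (fpoly a m) n).eval₂ (evR σ (hz t)) (η * r t) = 0 := by
    intro t
    rw [eval₂_spoly, evR_algebraMap, evR_algebraMap, mul_pow, hη, one_mul, eval₂_sub, eval₂_one]
    have h3 := hr3 t
    have h4 := hf0 t
    field_simp
    linear_combination -h3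
  refine ⟨mkLoop σ (spoly (fpoly a m) n) (circ R) (fun t => η * r t) hz
    (contDiff_circ R) hw (contDiff_const.mul hr1) (circ_closed R) (by rw [hr2]), ?_, r, hr1, hr2, ?_, hr4, ?_⟩
  · intro p t
    show evF σ (spoly (fpoly a m) n) (hz t) (hw t) (iotaS a m n p) = _
    unfold evF iotaS
    rw [RingHom.comp_apply, AdjoinRoot.lift_of, evR_algebraMap]
  · intro t
    show evF σ (spoly (fpoly a m) n) (hz t) (hw t) (AdjoinRoot.root (spoly (fpoly a m) n)) = _
    unfold evF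
    rw [AdjoinRoot.lift_root]
  · have h := hf.rep'.inv.mul hR hr5.inv
    refine h.congr (fun t => ?_) rfl (by ring) le_rfl
    have h3 : (1 - r t) * ∑ i ∈ Finset.range n, r t ^ i = 1 - r t ^ n := mul_neg_geom_sum (r t) n
    have h4 := hr3 t
    rw [← h3] at h4
    have h5 : (∑ i ∈ Finset.range n, r t ^ i) ≠ 0 := by
      intro h
      rw [h, mul_zero, mul_zero] at h4
      exact zero_ne_one h4
    have h6 := hf0 t
    field_simp
    linear_combination -h4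

end Pool.Agent.W367.KS
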