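import Pool.Agent.W367.KT.Est
import Pool.Agent.W367.KS.SLoops
set_option autoImplicit false

/-!
Regulator estimates for the classes `{x / (x - a_k), (1 - ζ ^ j y) / (1 - y)}`.
-/

namespace Pool.Agent.W367.KS

open Set MeasureTheory intervalIntegral Polynomial
open scoped TensorProduct WithZero Interval
open Pool.Agent.W367.KT

theorem Rep.inv' {R : ℝ} {A : ℝ → ℂ} {c : ℂ} {m : ℤ} {A0 A1 : ℝ}
    (hA : Rep R A c m A0 A1) : Rep R (fun t => (A t)⁻¹) c⁻¹ (-m) A0 A1 := by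
  obtain ⟨α, h1, h2, h3, h4, h5⟩ := hA
  refine ⟨fun t => -α t, h1.neg, by dsimp only; rw [h2], fun t => ?_, fun t => ?_, fun t => ?_⟩
  · dsimp only; rw [h3, mul_inv, mul_inv, zpow_neg, Complex.exp_neg]
  · rw [norm_neg]; exact h4 t
  · have : deriv (fun t => -α t) t = - deriv α t :=
      (((h1.differentiable (by norm_num)) t).hasDerivAt.neg).deriv
    rw [this, norm_neg]
    exact h5 t

section Defs

variable {K : Type*} [Field K] (a : ℕ → Kˣ) (m n : ℕ) [hI : Fact (Irreducible (spoly (fpoly a m) n))]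

/-- the function `x / (x - a_k)` -/
noncomputable def AS (k : ℕ) : (FS a m n)ˣ := xS a m n * (-(cS a m n (a k)) * hS a m n k)⁻¹

variable {m}

/-- the function `(1 - ζ ^ j y) / (1 - y)` -/
noncomputable def BS (hm : m ≠ 0) (hn : n ≠ 0) {z : Kˣ} (hz : z ^ n = 1) (j : ℕ) : (FS a m n)ˣ :=
  uS a n hm hn hz j * (uS a n hm hn hz 0)⁻¹

end Defs

/-- the limit of the regulator -/
noncomputable def nu (J : Finset ℕ) (k : ℕ) : ℝ := if k ∈ J then 0 else J.card * k - ∑ j ∈ J, (j : ℝ)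

/-- the error bound -/
noncomputable def CS (m n : ℕ) (κ : ℝ) : ℝ :=
  2 * Real.pi * (3 * m + 4) + 2 * Real.pi * (Real.log n + 2 * (|Real.log κ| + 1))

theorem rep_A_in {R : ℝ} (hR : 0 < R) {b : ℂ} (h : 2 * ‖b‖ ≤ R) :
    Rep R (fun t => circ R t * (circ R t - b)⁻¹) 1 0 1 (2 * Real.pi) := by
  have h1 := Rep.inv' (Rep.one_sub hR b (-1) (by norm_num) (fun t => by
      rw [norm_mul, norm_zpow, norm_circ hR, zpow_neg_one, ← div_eq_mul_inv, div_le_iff₀ hR]
      linarith))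
  refine h1.congr (fun t => ?_) inv_one (by norm_num) le_rfl le_rfl
  have h2 := circ_ne_zero hR t
  rw [zpow_neg_one]
  have h3 : 1 - b * (circ R t)⁻¹ = (circ R t - b) * (circ R t)⁻¹ := by
    rw [sub_mul, mul_inv_cancel₀ h2]
  rw [h3, mul_inv, inv_inv, mul_comm]

theorem rep_A_out {R : ℝ} (hR : 0 < R) {b : ℂ} (hb : b ≠ 0) (h : 2 * R ≤ ‖b‖) :
    Rep R (fun t => circ R t * (circ R t - b)⁻¹) (-b⁻¹) 1 1 (2 * Real.pi) := by
  have h1 := ((Rep.const R (-b⁻¹)).mul hR (Rep.x R)).mul hR (Rep.inv' (rep_factor_out hR hb h))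
  refine h1.congr (fun t => ?_) (by rw [inv_one]; ring) (by norm_num) (by norm_num) (by norm_num)
  have h2 := circ_ne_zero hR t
  have h3 : circ R t - b = (-b) * (1 - b⁻¹ * circ R t) := by
    field_simp; ring
  rw [h3, mul_inv]
  rw [inv_neg]
  ring

theorem abs_log_norm_le {n : ℕ} (hn : n ≠ 0) {κ : ℝ} (hκ0 : 0 < κ)
    (hκ : ∀ w : ℂ, w ^ n = 1 → w ≠ 1 → κ ≤ ‖1 - w‖) {w : ℂ} (hw : w ^ n = 1) (hw1 : w ≠ 1) :
    |Real.log ‖1 - w‖| ≤ |Real.log κ| + 1 := by
  have h1 := hκ w hw hw1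
  have hwn : ‖w‖ = 1 := by
    have : ‖w‖ ^ n = 1 := by rw [← norm_pow, hw, norm_one]
    exact (pow_eq_one_iff_of_nonneg (norm_nonneg w) hn).1 this
  have h2 : ‖1 - w‖ ≤ 2 := by
    have := norm_sub_le 1 w
    rw [norm_one, hwn] at this
    linarith
  have h3 : Real.log κ ≤ Real.log ‖1 - w‖ := Real.log_le_log hκ0 h1
  have h4 : Real.log ‖1 - w‖ ≤ 1 := by
    have := Real.log_le_log (hκ0.trans_le h1) h2
    have h5 := Real.log_two_lt_d9
    linarith
  rw [abs_le]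
  constructor
  · have := neg_abs_le (Real.log κ)
    linarith
  · have := abs_nonneg (Real.log κ)
    linarith

theorem rep_near {R : ℝ} {r : ℝ → ℂ} (hr : ContDiff ℝ 1 r) (hr01 : r 0 = r 1) {L κ : ℝ}
    (hL : 0 < L) (hκ0 : 0 < κ) (hLκ : 6 / κ ≤ L) (h : ∀ t, ‖r t - 1‖ ≤ 3 / L) {w : ℂ} (hw : ‖w‖ = 1)
    (hwκ : κ ≤ ‖1 - w‖) : Rep' R (fun t => 1 - w * r t) (1 - w) 0 1 := by
  have hw1 : 1 - w ≠ 0 := by
    intro h0
    rw [h0, norm_zero] at hwκ
    linarith
  have hc : ContDiff ℝ 1 (fun t => (1 - w * r t) / (1 - w)) :=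
    (contDiff_const.sub (contDiff_const.mul hr)).div_const _
  have h3 : 3 / L / κ ≤ 1 / 2 := by
    rw [div_le_iff₀ hκ0, div_le_iff₀ hL]
    rw [div_le_iff₀ hκ0] at hLκ
    linarith
  have hnear := Rep'.near_one (R := R) hc (by rw [hr01]) (δ := 3 / L / κ) h3 (by
    intro t
    have e : (1 - w * r t) / (1 - w) - 1 = -(w * (r t - 1)) / (1 - w) := by
      field_simp; ring
    rw [e, norm_div, norm_neg, norm_mul, hw, one_mul]
    exact div_le_div₀ (by positivity) (h t) hκ0 hwκ)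
  obtain ⟨α, k1, k2, k3, k4⟩ := hnear
  refine ⟨α, k1, k2, fun t => ?_, fun t => (k4 t).trans (by linarith)⟩
  have := k3 t
  simp only [one_mul, zpow_zero] at this
  rw [div_eq_iff hw1] at this
  dsimp only
  rw [this, zpow_zero]; ring

variable {K : Type*} [Field K] [NumberField K] (σ : K →+* ℂ) (ε : Kˣ) (N : ℕ)

/-- the main estimate -/
theorem exists_loop_estS {m n : ℕ} (hm : m ≠ 0) (hn : n ≠ 0)
    [hI : Fact (Irreducible (spoly (fpoly (au ε N) m) n))] {z : Kˣ} (hz : z ^ n = 1)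
    (hprim : ∀ i, ¬ n ∣ i → z ^ i ≠ 1)
    {R : ℝ} (hR : 0 < R) (hT : Transcendental ℚ R) (J : Finset ℕ) (hJn : J.Nonempty)
    {ρ L κ : ℝ} (hL : 8 ≤ L) (hκ0 : 0 < κ) (hκ : ∀ w : ℂ, w ^ n = 1 → w ≠ 1 → κ ≤ ‖1 - w‖)
    (hLκ : 6 / κ ≤ L) (hρ : L * Real.exp m ≤ ρ)
    (h1 : ∀ j ∈ J, ρ * ‖σ (au ε N j)‖ ≤ R)
    (h2 : ∀ j ∈ Finset.Icc 1 m, j ∉ J → ρ * R ≤ ‖σ (au ε N j)‖) (hJ : J ⊆ Finset.Icc 1 m)
    (s : ℕ) (hs : 1 ≤ s) (hsn : s < n) :
    ∃ γ : Loop (FS (au ε N) m n), ∀ k ∈ Finset.Icc 1 m, ∀ j, 1 ≤ j → j < n →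
      |γ.pair (AS (au ε N) m n k) (BS (au ε N) n hm hn hz j) -
        2 * Real.pi * (N * Real.log ‖σ (ε : K)‖) * (if j = s then nu J k else 0)| ≤ CS m n κ := by
  set ω : ℂ := σ (z : K) with hω
  have hωn : ω ^ n = 1 := by
    rw [hω, ← map_pow, ← Units.val_pow_eq_pow_val, hz, Units.val_one, map_one]
  have hωi : ∀ i, ¬ n ∣ i → ω ^ i ≠ 1 := by
    intro i hi h
    apply hprim i hi
    apply Units.ext
    apply σ.injective
    rw [Units.val_pow_eq_pow_val, map_pow, Units.val_one, map_one]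
    exact h
  have hpown : ∀ i : ℕ, (ω ^ i) ^ n = 1 := by
    intro i
    rw [← pow_mul, mul_comm, pow_mul, hωn, one_pow]
  have hnorm : ∀ i : ℕ, ‖ω ^ i‖ = 1 := by
    intro i
    have : ‖ω ^ i‖ ^ n = 1 := by rw [← norm_pow, hpown, norm_one]
    exact (pow_eq_one_iff_of_nonneg (norm_nonneg _) hn).1 this
  obtain ⟨γ, hγ, r, hr1, hr2, hr3, hr4, hr5⟩ := exists_loopS σ (au ε N) hm hn hR hT J hJn hL hρ h1 h2 hJ
    (ω ^ (n - s)) (hpown _)
  refine ⟨γ, ?_⟩
  have hexp : 1 ≤ Real.exp m := Real.one_le_exp (by positivity)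
  have hρ2 : 2 ≤ ρ := by nlinarith
  have hL0 : 0 < L := by linarith
  have hm0 : NeZero m := ⟨hm⟩
  set ℓ := N * Real.log ‖σ (ε : K)‖ with hℓ
  have hcJ := cJ_ne_zero σ (au ε N) m J
  have hlogcf : Real.log ‖cJ σ (au ε N) m J‖ = -((∑ j ∈ J, (j : ℝ)) * ℓ) := by
    rw [log_norm_cJ σ (au ε N) m J hJ, Finset.sum_mul]
    congr 1
    apply Finset.sum_congr rfl
    intro j _
    rw [log_norm_au]
  have hcard : (J.card : ℝ) ≤ m := by
    have := Finset.card_le_card hJ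
    rw [Nat.card_Icc, Nat.add_sub_cancel] at this
    exact_mod_cast this
  have hpi := Real.pi_pos
  have hm00 : (0:ℝ) ≤ m := by positivity
  have hcard0 : (0:ℝ) ≤ J.card := by positivity
  -- evaluation of u_j
  have hu : ∀ (j : ℕ) (t : ℝ), γ.e t (uS (au ε N) n hm hn hz j : FS (au ε N) m n) = 1 - ω ^ (j + (n - s)) * r t := by
    intro j t
    have e : (uS (au ε N) n hm hn hz j : FS (au ε N) m n) =
      1 - (cS (au ε N) m n z : FS (au ε N) m n) ^ j * (yS (au ε N) n hm hn : FS (au ε N) m n) := rfl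
    rw [e, map_sub, map_one, map_mul, map_pow, hr3, coe_cS, hγ, eval₂_C, pow_add]
    ring
  -- not congruent indices
  have hnd : ∀ j, j < n → j ≠ s → ¬ n ∣ j + (n - s) := by
    intro j hj hjs hd
    obtain ⟨c, hc⟩ := hd
    rcases Nat.lt_or_ge c 1 with h | h
    · have : c = 0 := by omega
      subst this
      omega
    · rcases Nat.lt_or_ge c 2 with h' | h'
      · have : c = 1 := by omega
        subst this
        omega
      · have : n * 2 ≤ n * c := Nat.mul_le_mul_left n h'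
        omega
  have hrep_u : ∀ j, j < n → j ≠ s → Rep' R (fun t => γ.e t (uS (au ε N) n hm hn hz j : FS (au ε N) m n))
      (1 - ω ^ (j + (n - s))) 0 1 := by
    intro j hj hjs
    exact (rep_near (R := R) hr1 hr2 hL0 hκ0 hLκ hr4 (hnorm _) (hκ _ (hpown _) (hωi _ (hnd j hj hjs)))).congr
      (fun t => (hu j t).symm) rfl rfl le_rfl
  have hrep_us : Rep' R (fun t => γ.e t (uS (au ε N) n hm hn hz s : FS (au ε N) m n))
      ((cJ σ (au ε N) m J)⁻¹ * (n : ℂ)⁻¹) (-J.card) (m + 1) := by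
    refine hr5.congr (fun t => ?_) rfl rfl le_rfl
    rw [hu, Nat.add_sub_cancel' hsn.le, hωn, one_mul]
  have hrep_u0 := (hrep_u 0 (by omega) (by omega)).inv
  rw [zero_add, neg_zero] at hrep_u0
  have hw0 : ω ^ (n - s) ≠ 1 := by
    have := hωi _ (hnd 0 (by omega) (by omega))
    rwa [zero_add] at this
  have hw0' : 1 - ω ^ (n - s) ≠ 0 := sub_ne_zero.2 (Ne.symm hw0)
  have hlog0 := abs_log_norm_le hn hκ0 hκ (hpown _) hw0
  have hnC : (n : ℂ) ≠ 0 := by exact_mod_cast hn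
  have hlogn : 0 ≤ Real.log n := Real.log_nonneg (by exact_mod_cast Nat.one_le_iff_ne_zero.2 hn)
  -- representation of B
  have hBs : Rep' R (fun t => γ.e t (BS (au ε N) n hm hn hz s : FS (au ε N) m n))
      ((cJ σ (au ε N) m J)⁻¹ * (n : ℂ)⁻¹ * (1 - ω ^ (n - s))⁻¹) (-J.card) (m + 2) := by
    refine (hrep_us.mul hR hrep_u0).congr (fun t => ?_) rfl (by ring) (by linarith)
    unfold BS
    rw [Units.val_mul, Units.val_inv_eq_inv_val, map_mul, map_inv₀]
  have hBj : ∀ j, j < n → j ≠ s → Rep' R (fun t => γ.e t (BS (au ε N) n hm hn hz j : FS (au ε N) m n))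
      ((1 - ω ^ (j + (n - s))) * (1 - ω ^ (n - s))⁻¹) 0 (m + 2) := by
    intro j hj hjs
    refine ((hrep_u j hj hjs).mul hR hrep_u0).congr (fun t => ?_) rfl (by ring) (by linarith)
    unfold BS
    rw [Units.val_mul, Units.val_inv_eq_inv_val, map_mul, map_inv₀]
  -- evaluation of A
  have hA : ∀ (k : ℕ) (t : ℝ), γ.e t (AS (au ε N) m n k : FS (au ε N) m n) =
      circ R t * (circ R t - σ (au ε N k : K))⁻¹ := by
    intro k t
    unfold AS
    rw [Units.val_mul, Units.val_inv_eq_inv_val, map_mul, map_inv₀]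
    have e1 : (((-(cS (au ε N) m n (au ε N k)) * hS (au ε N) m n k : (FS (au ε N) m n)ˣ)) : FS (au ε N) m n) =
        iotaS (au ε N) m n (X - C (au ε N k : K)) := by
      have h1 : (((-(cS (au ε N) m n (au ε N k)) * hS (au ε N) m n k : (FS (au ε N) m n)ˣ)) : FS (au ε N) m n) =
        -(iotaS (au ε N) m n (C (au ε N k : K))) *
          iotaS (au ε N) m n (1 - C (((au ε N k)⁻¹ : Kˣ) : K) * X) := rfl
      rw [h1, ← map_neg, ← map_mul]
      congr 1
      have h2 : (C ((au ε N k : Kˣ) : K) : K[X]) * C (((au ε N k)⁻¹ : Kˣ) : K) = 1 := by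
        rw [← C_mul, Units.mul_inv, C_1]
      linear_combination X * h2
    have e2 : (xS (au ε N) m n : FS (au ε N) m n) = iotaS (au ε N) m n X := rfl
    rw [e1, e2, hγ, hγ, eval₂_X, eval₂_sub, eval₂_X, eval₂_C]
  intro k hk j hj1 hjn
  have hCS : 2 * Real.pi * (3 * m + 4) + 2 * Real.pi * (Real.log n + 2 * (|Real.log κ| + 1)) = CS m n κ := rfl
  -- representation of `B j` in a uniform shape
  obtain ⟨cB, nB, hcB, hrepB, hnB, hlogB⟩ : ∃ (cB : ℂ) (nB : ℤ), cB ≠ 0 ∧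
      Rep' R (fun t => γ.e t (BS (au ε N) n hm hn hz j : FS (au ε N) m n)) cB nB (m + 2) ∧
      ((nB : ℝ) = if j = s then -(J.card : ℝ) else 0) ∧
      |Real.log ‖cB‖ - (if j = s then (∑ j ∈ J, (j : ℝ)) * ℓ else 0)| ≤ Real.log n + 2 * (|Real.log κ| + 1) := by
    by_cases hjs : j = s
    · subst hjs
      refine ⟨_, _, ?_, hBs, ?_, ?_⟩
      · exact mul_ne_zero (mul_ne_zero (inv_ne_zero hcJ) (inv_ne_zero hnC)) (inv_ne_zero hw0')
      · rw [if_pos rfl]; push_cast; rfl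
      · rw [if_pos rfl, norm_mul, norm_mul, norm_inv, norm_inv, norm_inv, Complex.norm_natCast,
          Real.log_mul, Real.log_mul, Real.log_inv, Real.log_inv, Real.log_inv, hlogcf]
        · have e : - -((∑ j ∈ J, (j : ℝ)) * ℓ) + -Real.log n + -Real.log ‖1 - ω ^ (n - j)‖ -
              (∑ j ∈ J, (j : ℝ)) * ℓ = -(Real.log n) + -Real.log ‖1 - ω ^ (n - j)‖ := by ring
          rw [e]
          have h3 := abs_add_le (-(Real.log n)) (-Real.log ‖1 - ω ^ (n - j)‖)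
          rw [abs_neg, abs_neg, abs_of_nonneg hlogn] at h3
          have h4 := abs_nonneg (Real.log κ)
          linarith
        · exact inv_ne_zero (norm_ne_zero_iff.2 hcJ)
        · exact inv_ne_zero (by exact_mod_cast hn)
        · exact mul_ne_zero (inv_ne_zero (norm_ne_zero_iff.2 hcJ)) (inv_ne_zero (by exact_mod_cast hn))
        · exact inv_ne_zero (norm_ne_zero_iff.2 hw0')
    · have hwj := hωi _ (hnd j hjn hjs)
      have hwj' : 1 - ω ^ (j + (n - s)) ≠ 0 := sub_ne_zero.2 (Ne.symm hwj)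
      refine ⟨_, _, ?_, hBj j hjn hjs, ?_, ?_⟩
      · exact mul_ne_zero hwj' (inv_ne_zero hw0')
      · rw [if_neg hjs]; push_cast; rfl
      · rw [if_neg hjs, norm_mul, norm_inv, Real.log_mul, Real.log_inv, sub_zero]
        · have h3 := abs_log_norm_le hn hκ0 hκ (hpown _) hwj
          have h4 := abs_add_le (Real.log ‖1 - ω ^ (j + (n - s))‖) (-Real.log ‖1 - ω ^ (n - s)‖)
          rw [abs_neg] at h4
          linarith
        · exact norm_ne_zero_iff.2 hwj'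
        · exact inv_ne_zero (norm_ne_zero_iff.2 hw0')
  obtain ⟨β, b1, b2, b3, b4⟩ := hrepB
  have hnBabs : |(nB : ℝ)| ≤ m := by
    rw [hnB]
    split_ifs
    · rw [abs_neg, abs_of_nonneg hcard0]; exact hcard
    · rw [abs_zero]; exact hm00
  by_cases hkJ : k ∈ J
  · have hR2 : 2 * ‖σ (au ε N k : K)‖ ≤ R :=
      (mul_le_mul_of_nonneg_right hρ2 (norm_nonneg _)).trans (h1 k hkJ)
    obtain ⟨α, a1, a2, a3, a4, a5⟩ := rep_A_in hR hR2
    have h := pair_estimate γ (AS (au ε N) m n k) (BS (au ε N) n hm hn hz j) hR one_ne_zero hcB 0 nB a1 b1 a2 b2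
      (fun t => (hA k t).trans (a3 t)) b3 a4 a5 b4
    have hnu : nu J k = 0 := if_pos hkJ
    have e : (if j = s then nu J k else 0 : ℝ) = 0 := by rw [hnu]; simp
    rw [e, mul_zero, sub_zero, ← hCS]
    simp only [norm_one, Real.log_one, mul_zero, Int.cast_zero, zero_mul, sub_zero, abs_zero, mul_one,
      zero_add] at h
    calc |γ.pair (AS (au ε N) m n k) (BS (au ε N) n hm hn hz j)| ≤
          2 * Real.pi * |(nB : ℝ)| + (m + 2) * (2 * Real.pi) := h
      _ ≤ 2 * Real.pi * m + (m + 2) * (2 * Real.pi) := by gcongr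
      _ ≤ 2 * Real.pi * (3 * m + 4) + 2 * Real.pi * (Real.log n + 2 * (|Real.log κ| + 1)) := by
          have h4 : 0 ≤ 2 * Real.pi * (Real.log n + 2 * (|Real.log κ| + 1)) := by
            have := abs_nonneg (Real.log κ)
            positivity
          nlinarith [mul_nonneg hpi.le hm00]
  · have hR2 : 2 * R ≤ ‖σ (au ε N k : K)‖ :=
      (mul_le_mul_of_nonneg_right hρ2 hR.le).trans (h2 k hk hkJ)
    have hak := sigma_ne σ (au ε N k)
    obtain ⟨α, a1, a2, a3, a4, a5⟩ := rep_A_out hR hak hR2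
    have h := pair_estimate γ (AS (au ε N) m n k) (BS (au ε N) n hm hn hz j) hR
      (neg_ne_zero.2 (inv_ne_zero hak)) hcB 1 nB a1 b1 a2 b2
      (fun t => (hA k t).trans (a3 t)) b3 a4 a5 b4
    have hnu : nu J k = J.card * k - ∑ j ∈ J, (j : ℝ) := if_neg hkJ
    rw [norm_neg, norm_inv, Real.log_inv, log_norm_au, ← hℓ, hnB] at h
    have e : 2 * Real.pi * ℓ * (if j = s then nu J k else 0) =
        2 * Real.pi * ((if j = s then -(J.card : ℝ) else 0) * -(k * ℓ) - (if j = s then (∑ j ∈ J, (j : ℝ)) * ℓ else 0)) := by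
      split_ifs
      · rw [hnu]; ring
      · ring
    rw [e, ← hCS]
    set P := γ.pair (AS (au ε N) m n k) (BS (au ε N) n hm hn hz j) with hP
    set Q := (if j = s then -(J.card : ℝ) else 0) * -(k * ℓ) with hQ
    set S := (if j = s then (∑ j ∈ J, (j : ℝ)) * ℓ else 0) with hS
    have hQ' : |P - 2 * Real.pi * (Q - 1 * Real.log ‖cB‖)| ≤ 2 * Real.pi * |(1:ℝ)| * (m + 2) +
        2 * Real.pi * |(nB : ℝ)| * 1 + (m + 2) * (2 * Real.pi) := by
      rw [hnB]
      have := h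
      push_cast at this
      exact this
    rw [abs_one] at hQ'
    have h5 : |2 * Real.pi * (S - Real.log ‖cB‖)| ≤ 2 * Real.pi * (Real.log n + 2 * (|Real.log κ| + 1)) := by
      rw [abs_mul, abs_of_pos (by positivity : 0 < 2 * Real.pi), abs_sub_comm]
      gcongr
    have e3 : P - 2 * Real.pi * (Q - S) = (P - 2 * Real.pi * (Q - 1 * Real.log ‖cB‖)) +
        2 * Real.pi * (S - Real.log ‖cB‖) := by ring
    rw [e3]
    calc |(P - 2 * Real.pi * (Q - 1 * Real.log ‖cB‖)) + 2 * Real.pi * (S - Real.log ‖cB‖)|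
        ≤ |P - 2 * Real.pi * (Q - 1 * Real.log ‖cB‖)| + |2 * Real.pi * (S - Real.log ‖cB‖)| := abs_add_le _ _
      _ ≤ (2 * Real.pi * 1 * (m + 2) + 2 * Real.pi * |(nB : ℝ)| * 1 + (m + 2) * (2 * Real.pi)) +
          2 * Real.pi * (Real.log n + 2 * (|Real.log κ| + 1)) := add_le_add hQ' h5
      _ ≤ (2 * Real.pi * 1 * (m + 2) + 2 * Real.pi * m * 1 + (m + 2) * (2 * Real.pi)) +
          2 * Real.pi * (Real.log n + 2 * (|Real.log κ| + 1)) := by gcongr
      _ = 2 * Real.pi * (3 * m + 4) + 2 * Real.pi * (Real.log n + 2 * (|Real.log κ| + 1)) := by ring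

end Pool.Agent.W367.KS
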