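import Pool.Agent.W367.KT.Sq
set_option autoImplicit false

/-!
`f (f - 1)` is squarefree when the roots of `f` are widely separated in a complex embedding.
-/

namespace Pool.Agent.W367.KS

open Polynomial
open Pool.Agent.W367.KT

theorem crit_norm_gt_one {ι : Type*} [DecidableEq ι] (s : Finset ι) (hsne : s.Nonempty) (a : ι → ℂ)
    (ha : ∀ j ∈ s, a j ≠ 0) {lam : ℝ} (hl : 16 * ((s.card : ℝ) + 2) ≤ lam)
    (hsep : ∀ i ∈ s, ∀ j ∈ s, i ≠ j → lam ^ 2 * ‖a i‖ ≤ ‖a j‖ ∨ lam ^ 2 * ‖a j‖ ≤ ‖a i‖)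
    (z : ℂ) (hz : ∀ j ∈ s, z ≠ a j) (hsum : ∑ j ∈ s, 1 / (z - a j) = 0) :
    1 < ‖∏ j ∈ s, (1 - z / a j)‖ := by
  set m : ℝ := (s.card : ℝ) with hm
  have hm0 : 0 ≤ m := by positivity
  have hl32 : 32 ≤ lam := by linarith
  have hl0 : 0 < lam := by linarith
  have hinner : ∃ j ∈ s, lam * ‖a j‖ ≤ ‖z‖ := by
    by_contra hcon
    push Not at hcon
    obtain ⟨i, hi, hmin⟩ := s.exists_min_image (fun j => ‖a j‖) hsne
    have hai : 0 < ‖a i‖ := norm_pos_iff.2 (ha i hi)
    set A0 := ‖a i‖ with hA0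
    have hzlt := hcon i hi
    have hfar : ∀ j ∈ s.erase i, lam ^ 2 * A0 ≤ ‖a j‖ := by
      intro j hj
      rw [Finset.mem_erase] at hj
      rcases hsep i hi j hj.2 (Ne.symm hj.1) with h | h
      · exact h
      · exfalso
        have h1 := hmin j hj.2
        have h2 : 0 < ‖a j‖ := norm_pos_iff.2 (ha j hj.2)
        have hlam2 : 1 < lam ^ 2 := by nlinarith
        have hlt : ‖a j‖ < lam ^ 2 * ‖a j‖ := by nlinarith
        linarith
    have hD : 0 < (lam ^ 2 - lam) * A0 := by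
      apply mul_pos _ hai
      nlinarith
    have hterm : ∀ j ∈ s.erase i, ‖1 / (z - a j)‖ ≤ 1 / ((lam ^ 2 - lam) * A0) := by
      intro j hj
      rw [norm_div, norm_one]
      apply one_div_le_one_div_of_le hD
      have h1 := norm_sub_norm_le (a j) z
      rw [norm_sub_rev] at h1
      have h2 := hfar j hj
      nlinarith
    have h1 : 1 / (z - a i) = -∑ j ∈ s.erase i, 1 / (z - a j) := by
      have := Finset.add_sum_erase s (fun j => 1 / (z - a j)) hi
      rw [hsum] at this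
      linear_combination this
    have h2 : ‖1 / (z - a i)‖ ≤ m * (1 / ((lam ^ 2 - lam) * A0)) := by
      rw [h1, norm_neg]
      calc ‖∑ j ∈ s.erase i, 1 / (z - a j)‖ ≤ ∑ j ∈ s.erase i, ‖1 / (z - a j)‖ := norm_sum_le _ _
        _ ≤ ∑ j ∈ s.erase i, (1 / ((lam ^ 2 - lam) * A0)) := Finset.sum_le_sum hterm
        _ = (s.erase i).card * (1 / ((lam ^ 2 - lam) * A0)) := by rw [Finset.sum_const, nsmul_eq_mul]
        _ ≤ m * (1 / ((lam ^ 2 - lam) * A0)) := by
            have h3 : ((s.erase i).card : ℝ) ≤ m := by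
              rw [hm]; exact_mod_cast Finset.card_le_card (Finset.erase_subset _ _)
            exact mul_le_mul_of_nonneg_right h3 (by positivity)
    have hzi : 0 < ‖z - a i‖ := norm_pos_iff.2 (sub_ne_zero.2 (hz i hi))
    have h3 : ‖z - a i‖ ≤ (lam + 1) * A0 := by
      have := norm_sub_le z (a i)
      nlinarith
    rw [norm_div, norm_one, mul_one_div, div_le_div_iff₀ hzi hD, one_mul] at h2
    have h4 : m * ‖z - a i‖ ≤ m * ((lam + 1) * A0) := mul_le_mul_of_nonneg_left h3 hm0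
    have h5 : (lam ^ 2 - lam) * A0 ≤ (m * (lam + 1)) * A0 := by linarith
    have h6 := le_of_mul_le_mul_right h5 hai
    nlinarith
  obtain ⟨j1, hj1s, hj1'⟩ := hinner
  have hz0 : z ≠ 0 := by
    rintro rfl
    rw [norm_zero] at hj1'
    have := norm_pos_iff.2 (ha j1 hj1s)
    nlinarith
  have hzn : 0 < ‖z‖ := norm_pos_iff.2 hz0
  set w : ι → ℂ := fun j => z / (z - a j) with hw
  have hwsum : ∑ j ∈ s, w j = 0 := by
    have : ∑ j ∈ s, w j = z * ∑ j ∈ s, 1 / (z - a j) := by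
      rw [Finset.mul_sum]
      apply Finset.sum_congr rfl
      intro j _
      simp only [hw]; ring
    rw [this, hsum, mul_zero]
  -- relation between w and the factor
  have hwf : ∀ j ∈ s, (1 - z / a j) * (1 - w j) = 1 := by
    intro j hj
    have h1 := ha j hj
    have h2 : z - a j ≠ 0 := sub_ne_zero.2 (hz j hj)
    simp only [hw]
    field_simp
    ring
  -- small ratio
  have hη : 1 / (lam - 1) * m ≤ 1 / 8 := by
    rw [div_mul_eq_mul_div, one_mul, div_le_iff₀ (by linarith)]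
    linarith
  have hin : ∀ j ∈ s, lam * ‖a j‖ ≤ ‖z‖ → ‖w j - 1‖ ≤ 1 / (lam - 1) ∧ lam - 1 ≤ ‖1 - z / a j‖ := by
    intro j hj h
    have h1 := ha j hj
    have h1' : 0 < ‖a j‖ := norm_pos_iff.2 h1
    have h2 : z - a j ≠ 0 := sub_ne_zero.2 (hz j hj)
    have h3 : lam - 1 ≤ ‖1 - z / a j‖ := by
      have h4 : lam ≤ ‖z / a j‖ := by
        rw [norm_div, le_div_iff₀ h1']; exact h
      have h5 := norm_sub_norm_le (z / a j) 1
      rw [norm_one] at h5
      rw [norm_sub_rev]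
      linarith
    refine ⟨?_, h3⟩
    have e : w j - 1 = -1 / (1 - z / a j) := by
      have h5 : 1 - z / a j ≠ 0 := by
        intro h; rw [h, norm_zero] at h3; linarith
      have h6 : a j - z ≠ 0 := sub_ne_zero.2 (Ne.symm (hz j hj))
      simp only [hw]
      field_simp
      ring
    rw [e, norm_div, norm_neg, norm_one]
    exact one_div_le_one_div_of_le (by linarith) h3
  have hout : ∀ j ∈ s, lam * ‖z‖ ≤ ‖a j‖ → ‖w j‖ ≤ 1 / (lam - 1) ∧ ‖1 - z / a j‖ ≤ 1 + 1 / lam ∧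
      1 - 1 / lam ≤ ‖1 - z / a j‖ := by
    intro j hj h
    have h1 := ha j hj
    have h1' : 0 < ‖a j‖ := norm_pos_iff.2 h1
    have h4 : ‖z / a j‖ ≤ 1 / lam := by
      rw [norm_div, div_le_div_iff₀ h1' hl0]; linarith
    refine ⟨?_, ?_, ?_⟩
    · have h5 : lam - 1 ≤ ‖1 - a j / z‖ := by
        have h6 : lam ≤ ‖a j / z‖ := by
          rw [norm_div, le_div_iff₀ hzn]; exact h
        have h7 := norm_sub_norm_le (a j / z) 1
        rw [norm_one] at h7
        rw [norm_sub_rev]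
        linarith
      have e : w j = 1 / (1 - a j / z) := by
        have h2 : z - a j ≠ 0 := sub_ne_zero.2 (hz j hj)
        simp only [hw]
        field_simp
      rw [e, norm_div, norm_one]
      exact one_div_le_one_div_of_le (by linarith) h5
    · have := norm_sub_le 1 (z / a j)
      rw [norm_one] at this
      linarith
    · have h7 := norm_sub_norm_le 1 (z / a j)
      rw [norm_one] at h7
      linarith
  have hlam1 : 1 / lam ≤ 1 / 32 := one_div_le_one_div_of_le (by norm_num) hl32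
  have hlaminv : 0 ≤ 1 / lam := by positivity
  have hmlam : m * (1 / lam) ≤ 1 / 16 := by
    rw [mul_one_div, div_le_iff₀ hl0]; linarith
  have hup : ∀ n : ℕ, (n : ℝ) ≤ m → (1 + 1 / lam) ^ n ≤ 9 / 8 := by
    intro n hn
    have h1 : (1 + 1 / lam) ^ n ≤ Real.exp (n * (1 / lam)) := by
      rw [Real.exp_nat_mul]
      apply pow_le_pow_left₀ (by positivity)
      have := Real.add_one_le_exp (1 / lam)
      linarith
    have h2 : Real.exp (n * (1 / lam)) ≤ Real.exp (1 / 16) := by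
      apply Real.exp_le_exp.2
      exact (mul_le_mul_of_nonneg_right hn hlaminv).trans hmlam
    have h3 : Real.exp (1 / 16) ≤ 9 / 8 := by
      have h4 := Real.one_sub_le_exp_neg (1 / 16)
      rw [Real.exp_neg] at h4
      have h5 := Real.exp_pos (1 / 16)
      have h6 : (15 / 16 : ℝ) * Real.exp (1 / 16) ≤ 1 := by
        have := mul_le_mul_of_nonneg_right h4 h5.le
        rw [inv_mul_cancel₀ h5.ne'] at this
        linarith
      linarith
    linarith
  have hlow : ∀ n : ℕ, (n : ℝ) ≤ m → 15 / 16 ≤ (1 - 1 / lam) ^ n := by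
    intro n hn
    have h1 := one_add_mul_le_pow (show (-2:ℝ) ≤ -(1 / lam) by linarith) n
    have h2 : (n:ℝ) * (1 / lam) ≤ m * (1 / lam) := mul_le_mul_of_nonneg_right hn hlaminv
    have e : (1 + -(1 / lam)) = 1 - 1 / lam := by ring
    rw [e] at h1
    linarith
  -- indicator of the inner roots
  set d : ι → ℝ := fun j => if lam * ‖a j‖ ≤ ‖z‖ then 1 else 0 with hd
  have hd01 : ∀ j, d j = 0 ∨ d j = 1 := by
    intro j
    simp only [hd]
    split_ifs
    · right; rfl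
    · left; rfl
  have hwd : ∀ j ∈ s, (lam * ‖a j‖ ≤ ‖z‖ ∨ lam * ‖z‖ ≤ ‖a j‖) → ‖w j - d j‖ ≤ 1 / (lam - 1) := by
    intro j hj h
    by_cases h1 : lam * ‖a j‖ ≤ ‖z‖
    · simp only [hd, if_pos h1]
      simpa using (hin j hj h1).1
    · simp only [hd, if_neg h1]
      simpa using (hout j hj (h.resolve_left h1)).1
  have hfac_low : ∀ j ∈ s, (lam * ‖a j‖ ≤ ‖z‖ ∨ lam * ‖z‖ ≤ ‖a j‖) → 1 - 1 / lam ≤ ‖1 - z / a j‖ := by
    intro j hj h
    rcases h with h | h
    · have := (hin j hj h).2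
      linarith
    · exact (hout j hj h).2.2
  have hsumd : ∀ t ⊆ s, (∀ j ∈ t, (lam * ‖a j‖ ≤ ‖z‖ ∨ lam * ‖z‖ ≤ ‖a j‖)) →
      ‖(∑ j ∈ t, w j) - ((∑ j ∈ t, d j : ℝ) : ℂ)‖ ≤ 1 / 8 := by
    intro t ht h
    have e : (∑ j ∈ t, w j) - ((∑ j ∈ t, d j : ℝ) : ℂ) = ∑ j ∈ t, (w j - d j) := by
      rw [Finset.sum_sub_distrib]; push_cast; rfl
    rw [e]
    calc ‖∑ j ∈ t, (w j - d j)‖ ≤ ∑ j ∈ t, ‖w j - d j‖ := norm_sum_le _ _
      _ ≤ ∑ j ∈ t, (1 / (lam - 1)) := Finset.sum_le_sum fun j hj => hwd j (ht hj) (h j hj)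
      _ = t.card * (1 / (lam - 1)) := by rw [Finset.sum_const, nsmul_eq_mul]
      _ ≤ m * (1 / (lam - 1)) := by
          have h1 : (t.card : ℝ) ≤ m := by rw [hm]; exact_mod_cast Finset.card_le_card ht
          have h2 : 0 ≤ 1 / (lam - 1) := by
            apply div_nonneg zero_le_one; linarith
          exact mul_le_mul_of_nonneg_right h1 h2
      _ ≤ 1 / 8 := by linarith
  have hsumd_nat : ∀ t : Finset ι, ∃ n : ℕ, (∑ j ∈ t, d j) = n ∧ n ≤ t.card ∧ (n = 0 → ∀ j ∈ t, ¬ lam * ‖a j‖ ≤ ‖z‖) ∧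
      (n ≠ 0 → ∃ j ∈ t, lam * ‖a j‖ ≤ ‖z‖) := by
    intro t
    refine ⟨(t.filter fun j => lam * ‖a j‖ ≤ ‖z‖).card, ?_, Finset.card_filter_le _ _, ?_, ?_⟩
    · simp only [hd]
      rw [Finset.sum_ite]
      simp
    · intro h j hj hj2
      rw [Finset.card_eq_zero, Finset.filter_eq_empty_iff] at h
      exact h hj hj2
    · intro h
      obtain ⟨j, hj⟩ := Finset.card_ne_zero.1 h
      rw [Finset.mem_filter] at hj
      exact ⟨j, hj.1, hj.2⟩
  have hprod_up : ∀ t ⊆ s, (∀ j ∈ t, lam * ‖z‖ ≤ ‖a j‖) → ∏ j ∈ t, ‖1 - z / a j‖ ≤ 9 / 8 := by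
    intro t ht h
    calc ∏ j ∈ t, ‖1 - z / a j‖ ≤ ∏ j ∈ t, (1 + 1 / lam) :=
          Finset.prod_le_prod (fun _ _ => norm_nonneg _) fun j hj => (hout j (ht hj) (h j hj)).2.1
      _ = (1 + 1 / lam) ^ t.card := by rw [Finset.prod_const]
      _ ≤ 9 / 8 := hup _ (by rw [hm]; exact_mod_cast Finset.card_le_card ht)
  by_cases hmid : ∃ i ∈ s, ‖z‖ < lam * ‖a i‖ ∧ ‖a i‖ < lam * ‖z‖
  · obtain ⟨i, hi, hi1, hi2⟩ := hmid
    have hothers : ∀ j ∈ s.erase i, (lam * ‖a j‖ ≤ ‖z‖ ∨ lam * ‖z‖ ≤ ‖a j‖) := by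
      intro j hj
      rw [Finset.mem_erase] at hj
      by_contra hcon
      push Not at hcon
      obtain ⟨h1, h2⟩ := hcon
      rcases hsep i hi j hj.2 (Ne.symm hj.1) with h | h
      · have : lam * ‖z‖ ≤ ‖a j‖ := by
          calc lam * ‖z‖ ≤ lam * (lam * ‖a i‖) := by gcongr
            _ = lam ^ 2 * ‖a i‖ := by ring
            _ ≤ ‖a j‖ := h
        linarith
      · have : lam * ‖z‖ ≤ ‖a i‖ := by
          calc lam * ‖z‖ ≤ lam * (lam * ‖a j‖) := by gcongr
            _ = lam ^ 2 * ‖a j‖ := by ring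
            _ ≤ ‖a i‖ := h
        linarith
    have hsub : s.erase i ⊆ s := Finset.erase_subset _ _
    have h1 := hsumd _ hsub hothers
    obtain ⟨n, hn, hn1, hn2, hn3⟩ := hsumd_nat (s.erase i)
    have h2 : ∑ j ∈ s.erase i, w j = - w i := by
      have := Finset.add_sum_erase s w hi
      rw [hwsum] at this
      linear_combination this
    rw [h2, hn] at h1
    have hwi := hwf i hi
    have hprod : ‖∏ j ∈ s, (1 - z / a j)‖ = ‖1 - z / a i‖ * ∏ j ∈ s.erase i, ‖1 - z / a j‖ := by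
      rw [← Finset.mul_prod_erase s _ hi, norm_mul, norm_prod]
    have hnorm : ‖1 - z / a i‖ * ‖1 - w i‖ = 1 := by rw [← norm_mul, hwi, norm_one]
    have hj1i : j1 ≠ i := by
      rintro rfl
      linarith
    have hj1 : j1 ∈ s.erase i := Finset.mem_erase.2 ⟨hj1i, hj1s⟩
    have h3 : ‖1 - w i‖ ≤ m + 2 := by
      have e : 1 - w i = (-w i - ((n : ℝ) : ℂ)) + (1 + (n : ℂ)) := by push_cast; ring
      have hnm : (n : ℝ) ≤ s.card - 1 := by
        have : (s.erase i).card = s.card - 1 := Finset.card_erase_of_mem hi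
        rw [this] at hn1
        have hpos : 1 ≤ s.card := Finset.card_pos.2 ⟨i, hi⟩
        have : n + 1 ≤ s.card := by omega
        have : (n : ℝ) + 1 ≤ s.card := by exact_mod_cast this
        linarith
      calc ‖1 - w i‖ ≤ ‖-w i - ((n : ℝ) : ℂ)‖ + ‖(1 + (n : ℂ))‖ := by rw [e]; exact norm_add_le _ _
        _ ≤ 1 / 8 + (1 + n) := by
            gcongr
            calc ‖(1 + (n : ℂ))‖ ≤ ‖(1:ℂ)‖ + ‖(n : ℂ)‖ := norm_add_le _ _
              _ = 1 + n := by rw [norm_one, Complex.norm_natCast]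
        _ ≤ m + 2 := by rw [hm]; linarith
    have h4 : 1 / (m + 2) ≤ ‖1 - z / a i‖ := by
      rw [div_le_iff₀ (by linarith)]
      rw [← hnorm]
      exact mul_le_mul_of_nonneg_left h3 (norm_nonneg _)
    have h5 : lam - 1 ≤ ‖1 - z / a j1‖ := (hin j1 hj1s hj1').2
    have h6 : 15 / 16 ≤ ∏ j ∈ (s.erase i).erase j1, ‖1 - z / a j‖ := by
      calc (15 / 16 : ℝ) ≤ (1 - 1 / lam) ^ ((s.erase i).erase j1).card :=
            hlow _ (by rw [hm]; exact_mod_cast Finset.card_le_card ((Finset.erase_subset _ _).trans hsub))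
        _ = ∏ j ∈ (s.erase i).erase j1, (1 - 1 / lam) := by rw [Finset.prod_const]
        _ ≤ _ := Finset.prod_le_prod (fun _ _ => by linarith) fun j hj =>
            hfac_low j (hsub (Finset.mem_of_mem_erase hj)) (hothers j (Finset.mem_of_mem_erase hj))
    rw [hprod, ← Finset.mul_prod_erase _ _ hj1]
    have h7 : 1 / (m + 2) * ((lam - 1) * (15 / 16)) ≤
        ‖1 - z / a i‖ * (‖1 - z / a j1‖ * ∏ j ∈ (s.erase i).erase j1, ‖1 - z / a j‖) := by
      apply mul_le_mul h4 _ _ (norm_nonneg _)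
      · apply mul_le_mul h5 h6 (by norm_num) (norm_nonneg _)
      · apply mul_nonneg (by linarith) (by norm_num)
    refine lt_of_lt_of_le ?_ h7
    have h8 : 0 < m + 2 := by linarith
    rw [div_mul_eq_mul_div, one_mul, lt_div_iff₀ h8]
    nlinarith
  · push Not at hmid
    exfalso
    have hall : ∀ j ∈ s, (lam * ‖a j‖ ≤ ‖z‖ ∨ lam * ‖z‖ ≤ ‖a j‖) := by
      intro j hj
      rcases le_or_gt (lam * ‖a j‖) ‖z‖ with h | h
      · exact Or.inl h
      · exact Or.inr (hmid j hj h)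
    have h1 := hsumd s subset_rfl hall
    obtain ⟨n, hn, hn1, hn2, hn3⟩ := hsumd_nat s
    rw [hwsum, hn] at h1
    have h2 : (n : ℝ) ≤ 1 / 8 := by
      simpa using h1
    have h3 : n = 0 := by
      by_contra h
      have : (1 : ℝ) ≤ n := by exact_mod_cast Nat.one_le_iff_ne_zero.2 h
      linarith
    exact hn2 h3 j1 hj1s hj1'

variable {K : Type*} [Field K] (σ : K →+* ℂ) (a : ℕ → Kˣ) (m : ℕ)

theorem squarefree_sub_one {lam : ℝ} (hm : 1 ≤ m) (hl : 16 * ((m : ℝ) + 2) ≤ lam)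
    (hsep : ∀ i ∈ Finset.Icc 1 m, ∀ j ∈ Finset.Icc 1 m, i ≠ j →
      lam ^ 2 * ‖σ (a i)‖ ≤ ‖σ (a j)‖ ∨ lam ^ 2 * ‖σ (a j)‖ ≤ ‖σ (a i)‖) :
    Squarefree (fpoly a m - 1) := by
  apply Polynomial.Separable.squarefree
  rw [← Polynomial.separable_map σ]
  unfold Polynomial.Separable
  rw [Polynomial.isCoprime_iff_aeval_ne_zero_of_isAlgClosed ℂ ℂ]
  intro z
  by_contra hcon
  push Not at hcon
  obtain ⟨h1, h2⟩ := hcon
  set f : ℂ[X] := (fpoly a m).map σ with hf
  have e1 : (fpoly a m - 1).map σ = f - 1 := by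
    rw [Polynomial.map_sub, Polynomial.map_one]
  rw [e1] at h1 h2
  have h3 : f.eval z = 1 := by
    have : f.eval z - 1 = 0 := by simpa using h1
    linear_combination this
  have hfz : f.eval z ≠ 0 := by rw [h3]; exact one_ne_zero
  have h4 : f.derivative.eval z = 0 := by
    rw [derivative_sub, derivative_one, sub_zero] at h2
    simpa using h2
  have ha : ∀ j ∈ Finset.Icc 1 m, σ (a j : K) ≠ 0 := fun j _ => by
    rw [Ne, map_eq_zero]; exact (a j).ne_zero
  have hz : ∀ j ∈ Finset.Icc 1 m, z ≠ σ (a j) := by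
    intro j hj h
    apply hfz
    rw [hf, eval_map_fpoly]
    apply Finset.prod_eq_zero hj
    rw [← h, div_self, sub_self]
    rw [h]; exact ha j hj
  have h6 := hasDerivAt_prod_factor (Finset.Icc 1 m) (fun j => σ (a j : K)) ha z hz
  have h7 : HasDerivAt (fun z => f.eval z) (f.derivative.eval z) z := f.hasDerivAt z
  have h8 : (fun z => f.eval z) = fun z => ∏ j ∈ Finset.Icc 1 m, (1 - z / σ (a j)) := by
    funext z
    exact eval_map_fpoly σ a m z
  rw [h8] at h7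
  have h9 := h7.unique h6
  rw [h4] at h9
  have h10 : ∏ j ∈ Finset.Icc 1 m, (1 - z / σ (a j : K)) = f.eval z := (eval_map_fpoly σ a m z).symm
  rw [h10] at h9
  have h11 : ∑ j ∈ Finset.Icc 1 m, 1 / (z - σ (a j : K)) = 0 := by
    rcases mul_eq_zero.1 h9.symm with h | h
    · exact absurd h hfz
    · exact h
  have := crit_norm_gt_one (Finset.Icc 1 m) ⟨1, Finset.mem_Icc.2 ⟨le_rfl, hm⟩⟩ (fun j => σ (a j : K)) ha
    (lam := lam) (by rw [Nat.card_Icc, Nat.add_sub_cancel]; exact hl) hsep z hz h11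
  rw [h10, h3, norm_one] at this
  exact lt_irrefl _ this

/-- `f (f - 1)` is squarefree -/
theorem squarefree_mul_sub_one {lam : ℝ} (hm : 1 ≤ m) (hl : 16 * ((m : ℝ) + 2) ≤ lam)
    (hsep : ∀ i ∈ Finset.Icc 1 m, ∀ j ∈ Finset.Icc 1 m, i ≠ j →
      lam ^ 2 * ‖σ (a i)‖ ≤ ‖σ (a j)‖ ∨ lam ^ 2 * ‖σ (a j)‖ ≤ ‖σ (a i)‖) :
    Squarefree (fpoly a m * (fpoly a m - 1)) := by
  rw [squarefree_mul_iff]
  refine ⟨?_, ?_, squarefree_sub_one σ a m hm hl hsep⟩
  · apply IsCoprime.isRelPrime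
    exact ⟨1, -1, by ring⟩
  · have hdist : ∀ i ∈ Finset.Icc 1 m, ∀ j ∈ Finset.Icc 1 m, i ≠ j → a i ≠ a j := by
      intro i hi j hj hij h
      have hp : 0 < ‖σ (a j : K)‖ := norm_pos_iff.2 (by rw [Ne, map_eq_zero]; exact (a j).ne_zero)
      have hlam : 32 ≤ lam := by
        have : (0:ℝ) ≤ m := by positivity
        linarith
      have hlam2 : 1 < lam ^ 2 := by nlinarith
      have hlt : ‖σ (a j : K)‖ < lam ^ 2 * ‖σ (a j : K)‖ := by nlinarith
      rcases hsep i hi j hj hij with h1 | h1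
      · rw [h] at h1
        linarith
      · rw [h] at h1
        linarith
    unfold fpoly
    have hfac : ∀ j, (1 - C (((a j)⁻¹ : Kˣ) : K) * X : K[X]) = C (-(((a j)⁻¹ : Kˣ) : K)) * (X - C (a j : K)) := by
      intro j
      have h1 : (C (((a j)⁻¹ : Kˣ) : K) : K[X]) * C ((a j : Kˣ) : K) = 1 := by
        rw [← C_mul, Units.inv_mul, C_1]
      rw [map_neg]
      linear_combination -h1
    have hunit : ∀ j, IsUnit (C (-(((a j)⁻¹ : Kˣ) : K)) : K[X]) := by
      intro j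
      rw [isUnit_C]
      exact (Units.isUnit _).neg
    apply Finset.squarefree_prod_of_pairwise_isCoprime
    · intro i hi j hj hij
      have hne := hdist i hi j hj hij
      show IsRelPrime (1 - C (((a i)⁻¹ : Kˣ) : K) * X : K[X]) (1 - C (((a j)⁻¹ : Kˣ) : K) * X : K[X])
      apply IsCoprime.isRelPrime
      rw [hfac, hfac, isCoprime_mul_unit_left_left (hunit i), isCoprime_mul_unit_left_right (hunit j)]
      apply isCoprime_X_sub_C_of_isUnit_sub
      rw [isUnit_iff_ne_zero, sub_ne_zero]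
      intro h
      exact hne (Units.ext h)
    · intro j _
      rw [hfac]
      have h1 : Associated (C (-(((a j)⁻¹ : Kˣ) : K)) * (X - C (a j : K))) (X - C (a j : K)) :=
        associated_unit_mul_left _ _ (hunit j)
      exact (h1.squarefree_iff).2 (irreducible_X_sub_C _).squarefree

end Pool.Agent.W367.KS
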