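import Pool.Agent.W367.KT.Final
import Pool.Agent.W367.KS.SEst
import Pool.Agent.W367.KS.Sq2
set_option autoImplicit false

/-!
Assembly: `m (n - 1)` independent classes on the curve `f(x) (1 - y ^ n) = 1`.
-/

namespace Pool.Agent.W367.KS

open Set MeasureTheory intervalIntegral Polynomial NumberField
open scoped TensorProduct WithZero Interval Kronecker
open Pool.Agent.W367.KT

section LinAlg

/-- the limit matrix -/
noncomputable def MinfS (m : ℕ) (ℓ ℓ' : ℝ) : Matrix (Fin m) (Fin m) ℝ :=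
  Matrix.of fun i k => (if (i : ℕ) + 1 < m then ℓ else ℓ') * nu (Jset m i) (k + 1)

theorem nu_Icc_one {i k : ℕ} (h : k ≤ i) : nu (Finset.Icc 1 (i + 1)) (k + 1) = 0 :=
  if_pos (Finset.mem_Icc.2 ⟨by omega, by omega⟩)

theorem nu_Icc_one_ne {i : ℕ} : nu (Finset.Icc 1 (i + 1)) (i + 1 + 1) ≠ 0 := by
  unfold nu
  rw [if_neg (by rw [Finset.mem_Icc]; omega), Nat.card_Icc, Nat.add_sub_cancel]
  have h := sum_Icc_one (i + 1)
  have h2 : (∑ j ∈ Finset.Icc 1 (i + 1), (j : ℝ)) = ((i + 1 : ℕ) : ℝ) * (((i + 1 : ℕ) : ℝ) + 1) / 2 := by linarith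
  rw [h2]
  push_cast
  have : (0:ℝ) ≤ i := by positivity
  have h3 : ((i:ℝ) + 1) * ((i:ℝ) + 1 + 1) - ((i:ℝ) + 1) * ((i:ℝ) + 1 + 1) / 2 = ((i:ℝ) + 1) * (i + 2) / 2 := by ring
  rw [h3]
  positivity

theorem nu_Icc_two {m k : ℕ} (hk : 1 ≤ k) (hkm : k < m) : nu (Finset.Icc 2 m) (k + 1) = 0 :=
  if_pos (Finset.mem_Icc.2 ⟨by omega, by omega⟩)

theorem nu_Icc_two_ne {m : ℕ} (hm : 2 ≤ m) : nu (Finset.Icc 2 m) (0 + 1) ≠ 0 := by
  unfold nu
  rw [if_neg (by rw [Finset.mem_Icc]; omega), sum_Icc_two (by omega), Nat.card_Icc]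
  have h := sum_Icc_one m
  have h2 : (∑ j ∈ Finset.Icc 1 m, (j : ℝ)) = (m : ℝ) * ((m : ℝ) + 1) / 2 := by linarith
  have h3 : ((m + 1 - 2 : ℕ) : ℝ) = m - 1 := by
    have : m + 1 - 2 = m - 1 := by omega
    rw [this, Nat.cast_sub (by omega)]; simp
  rw [h2, h3]
  have hm' : (2:ℝ) ≤ m := by exact_mod_cast hm
  push_cast
  have h4 : ((m:ℝ) - 1) * 1 - ((m:ℝ) * (m + 1) / 2 - 1) = -((m:ℝ) * (m - 1) / 2) := by ring
  rw [h4]
  apply neg_ne_zero.2
  have : 0 < (m:ℝ) * (m - 1) / 2 := by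
    apply div_pos _ two_pos
    apply mul_pos <;> linarith
  exact this.ne'

theorem det_MinfS_ne_zero {m : ℕ} (hm : 2 ≤ m) {ℓ ℓ' : ℝ} (h : ℓ ≠ 0) (h' : ℓ' ≠ 0) :
    (MinfS m ℓ ℓ').det ≠ 0 := by
  intro hdet
  obtain ⟨v, hv, hMv⟩ := Matrix.exists_mulVec_eq_zero_iff.2 hdet
  apply hv
  -- the last row
  have hlast : v ⟨0, by omega⟩ = 0 := by
    have h1 := congrFun hMv ⟨m - 1, by omega⟩
    simp only [Matrix.mulVec, dotProduct, MinfS, Matrix.of_apply, Pi.zero_apply] at h1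
    have hneg : ¬ (m - 1 + 1 < m) := by omega
    rw [Finset.sum_eq_single (⟨0, by omega⟩ : Fin m)] at h1
    · unfold Jset at h1
      rw [if_neg hneg, if_neg hneg] at h1
      exact (mul_eq_zero.1 h1).resolve_left (mul_ne_zero h' (nu_Icc_two_ne hm))
    · intro k _ hk
      unfold Jset
      rw [if_neg hneg, if_neg hneg, nu_Icc_two, mul_zero, zero_mul]
      · have : (k : ℕ) ≠ 0 := fun h0 => hk (Fin.ext h0)
        omega
      · exact k.isLt
    · intro h0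
      exact absurd (Finset.mem_univ _) h0
  -- the other rows
  have hrow : ∀ d : ℕ, ∀ k : Fin m, 1 ≤ (k : ℕ) → (k : ℕ) + d = m - 1 → v k = 0 := by
    intro d
    induction d using Nat.strong_induction_on with
    | _ d ih =>
      intro k hk1 hkd
      have hlt : (k : ℕ) - 1 < m := by omega
      have h1 := congrFun hMv ⟨(k : ℕ) - 1, hlt⟩
      simp only [Matrix.mulVec, dotProduct, MinfS, Matrix.of_apply, Pi.zero_apply] at h1
      have hpos : (k : ℕ) - 1 + 1 < m := by have := k.isLt; omega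
      rw [Finset.sum_eq_single k] at h1
      · unfold Jset at h1
        rw [if_pos hpos, if_pos hpos] at h1
        have e : nu (Finset.Icc 1 ((k : ℕ) - 1 + 1)) ((k : ℕ) + 1) ≠ 0 := by
          have := nu_Icc_one_ne (i := (k : ℕ) - 1)
          have e2 : (k : ℕ) - 1 + 1 + 1 = (k : ℕ) + 1 := by omega
          rwa [e2] at this
        exact (mul_eq_zero.1 h1).resolve_left (mul_ne_zero h e)
      · intro k' _ hk'
        have hne : (k' : ℕ) ≠ k := fun h0 => hk' (Fin.ext h0)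
        rcases Nat.lt_or_gt_of_ne hne with hlt' | hgt
        · unfold Jset
          rw [if_pos hpos, if_pos hpos, nu_Icc_one (by omega), mul_zero, zero_mul]
        · have hk'm := k'.isLt
          rw [ih (m - 1 - k') (by omega) k' (by omega) (by omega), mul_zero]
      · intro h0
        exact absurd (Finset.mem_univ _) h0
  funext k
  by_cases hk : (k : ℕ) = 0
  · have : k = ⟨0, by omega⟩ := Fin.ext hk
    rw [this]; exact hlast
  · exact hrow (m - 1 - k) k (by omega) (by have := k.isLt; omega)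

theorem det_near' {ι : Type*} [Fintype ι] [DecidableEq ι] (D : Matrix ι ι ℝ) (hD : D.det ≠ 0) :
    ∃ δ > 0, ∀ A : Matrix ι ι ℝ, (∀ i k, |A i k - D i k| < δ) → A.det ≠ 0 := by
  have hcont : Continuous fun A : ι → ι → ℝ => (Matrix.of A).det := by
    apply Continuous.matrix_det
    exact continuous_id
  have hopen : IsOpen {A : ι → ι → ℝ | (Matrix.of A).det ≠ 0} := isOpen_ne.preimage hcont
  obtain ⟨δ, hδ, hball⟩ := Metric.isOpen_iff.1 hopen (fun i k => D i k) hD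
  refine ⟨δ, hδ, fun A hA => ?_⟩
  have : (fun i k => A i k) ∈ Metric.ball (fun i k => D i k) δ := by
    rw [Metric.mem_ball, dist_pi_lt_iff hδ]
    intro i
    rw [dist_pi_lt_iff hδ]
    intro k
    rw [Real.dist_eq]
    exact hA i k
  exact hball this

end LinAlg

section Classes

variable {K : Type*} [Field K] {m n : ℕ} (hm : m ≠ 0) (hn : n ≠ 0) (ε : Kˣ) (N : ℕ)
  [hI : Fact (Irreducible (spoly (fpoly (au ε N) m) n))] {z : Kˣ} (hz : z ^ n = 1)

/-- the classes -/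
noncomputable def clsS (k j : ℕ) : ℚ ⊗[ℤ] K2 (FS (au ε N) m n) :=
  (1 : ℚ) ⊗ₜ[ℤ] symb (AS (au ε N) m n k) (BS (au ε N) n hm hn hz j)

theorem clsS_mem (hε : IsIntegral ℤ (ε : K)) (hε' : IsIntegral ℤ ((ε⁻¹ : Kˣ) : K)) (k : ℕ)
    (hk : k ∈ Finset.Icc 1 m) (j : ℕ) : clsS hm hn ε N hz k j ∈ H2MZ (FS (au ε N) m n) := by
  have ha : ∀ (v : Valuation (FS (au ε N) m n) ℤᵐ⁰) (j : ℕ),
      v ((zData (au ε N) n hm hn hz).a j : FS (au ε N) m n) = 1 := by
    intro v j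
    show v (cS (au ε N) m n (au ε N j) : FS (au ε N) m n) = 1
    have h1 : v (cS (au ε N) m n ε : FS (au ε N) m n) = 1 :=
      val_map_eq_one v ((iotaS (au ε N) m n).comp C) ε hε hε'
    have e1 : cS (au ε N) m n (au ε N j) = cS (au ε N) m n ε ^ (j * N) := by
      rw [← map_pow]; rfl
    rw [e1, Units.val_pow_eq_pow_val, map_pow, h1, one_pow]
  unfold clsS
  apply tmul_symb_mem _ _ n hn
  intro v
  rw [← mem_U1]
  exact (zData (au ε N) n hm hn hz).tame (ha v) k hk j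

theorem regQ_clsS (γ : Loop (FS (au ε N) m n)) (k j : ℕ) : γ.regQ (clsS hm hn ε N hz k j) =
    γ.pair (AS (au ε N) m n k) (BS (au ε N) n hm hn hz j) := by
  unfold clsS
  rw [Loop.regQ_tmul, one_smul]

end Classes

section Loops

variable {K : Type*} [Field K] [NumberField K] (σ : K →+* ℂ) {m n : ℕ} (hm : m ≠ 0) (hn : n ≠ 0)
  (ε : Kˣ) (N : ℕ) [hI : Fact (Irreducible (spoly (fpoly (au ε N) m) n))] {z : Kˣ} (hz : z ^ n = 1)
  (hprim : ∀ i, ¬ n ∣ i → z ^ i ≠ 1)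
include hprim

theorem norm_au' (j : ℕ) : ‖σ (au ε N j : K)‖ = (‖σ (ε : K)‖ ^ N) ^ j := by
  unfold au
  rw [Units.val_pow_eq_pow_val, map_pow, norm_pow, ← pow_mul, mul_comm]

theorem loopS_one {ρ L κ : ℝ} (hL : 8 ≤ L) (hκ0 : 0 < κ) (hκ : ∀ w : ℂ, w ^ n = 1 → w ≠ 1 → κ ≤ ‖1 - w‖)
    (hLκ : 6 / κ ≤ L) (hρ : L * Real.exp m ≤ ρ) (h : ρ ^ 2 < ‖σ (ε : K)‖ ^ N) (i : ℕ) (hi : 1 ≤ i)
    (him : i < m) (s : ℕ) (hs : 1 ≤ s) (hsn : s < n) :
    ∃ γ : Loop (FS (au ε N) m n), ∀ k ∈ Finset.Icc 1 m, ∀ j, 1 ≤ j → j < n →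
      |γ.regQ (clsS hm hn ε N hz k j) - 2 * Real.pi * (N * Real.log ‖σ (ε : K)‖) *
        (if j = s then nu (Finset.Icc 1 i) k else 0)| ≤ CS m n κ := by
  have hρ1 : 1 ≤ ρ := by
    have : 1 ≤ Real.exp m := Real.one_le_exp (by positivity)
    nlinarith
  set T := ‖σ (ε : K)‖ ^ N with hT
  have hT1 : 1 < T := by nlinarith
  have hlt : ρ * T ^ i < T ^ (i + 1) / ρ := by
    rw [lt_div_iff₀ (by linarith), pow_succ]
    have : 0 < T ^ i := by positivity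
    nlinarith
  obtain ⟨R, hR1, hR2, hRT⟩ := exists_transcendental_between hlt
  have hR : 0 < R := lt_trans (by positivity) hR1
  obtain ⟨γ, hγ⟩ := exists_loop_estS σ ε N hm hn hz hprim hR hRT (Finset.Icc 1 i)
    ⟨1, Finset.mem_Icc.2 ⟨le_rfl, hi⟩⟩ hL hκ0 hκ hLκ hρ
    (by
      intro j hj
      rw [Finset.mem_Icc] at hj
      rw [norm_au' σ ε N hprim]
      have : T ^ j ≤ T ^ i := pow_le_pow_right₀ hT1.le hj.2
      nlinarith)
    (by
      intro j hj hj2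
      rw [Finset.mem_Icc] at hj hj2
      rw [norm_au' σ ε N hprim]
      have : T ^ (i + 1) ≤ T ^ j := pow_le_pow_right₀ hT1.le (by omega)
      rw [lt_div_iff₀ (by linarith)] at hR2
      nlinarith)
    (Finset.Icc_subset_Icc le_rfl him.le) s hs hsn
  refine ⟨γ, fun k hk j hj1 hj2 => ?_⟩
  rw [regQ_clsS]
  exact hγ k hk j hj1 hj2

theorem loopS_two {ρ L κ : ℝ} (hL : 8 ≤ L) (hκ0 : 0 < κ) (hκ : ∀ w : ℂ, w ^ n = 1 → w ≠ 1 → κ ≤ ‖1 - w‖)
    (hLκ : 6 / κ ≤ L) (hρ : L * Real.exp m ≤ ρ) (h : ρ ^ 2 * ‖σ (ε : K)‖ ^ N < 1) (hm2 : 2 ≤ m)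
    (s : ℕ) (hs : 1 ≤ s) (hsn : s < n) :
    ∃ γ : Loop (FS (au ε N) m n), ∀ k ∈ Finset.Icc 1 m, ∀ j, 1 ≤ j → j < n →
      |γ.regQ (clsS hm hn ε N hz k j) - 2 * Real.pi * (N * Real.log ‖σ (ε : K)‖) *
        (if j = s then nu (Finset.Icc 2 m) k else 0)| ≤ CS m n κ := by
  have hρ1 : 1 ≤ ρ := by
    have : 1 ≤ Real.exp m := Real.one_le_exp (by positivity)
    nlinarith
  set T := ‖σ (ε : K)‖ ^ N with hT
  have hT0 : 0 < T := by
    rw [hT]
    exact pow_pos (norm_pos_iff.2 (sigma_ne σ ε)) N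
  have hT1 : T < 1 := by nlinarith
  have hlt : ρ * T ^ 2 < T / ρ := by
    rw [lt_div_iff₀ (by linarith)]
    nlinarith
  obtain ⟨R, hR1, hR2, hRT⟩ := exists_transcendental_between hlt
  have hR : 0 < R := lt_trans (by positivity) hR1
  obtain ⟨γ, hγ⟩ := exists_loop_estS σ ε N hm hn hz hprim hR hRT (Finset.Icc 2 m)
    ⟨2, Finset.mem_Icc.2 ⟨le_rfl, hm2⟩⟩ hL hκ0 hκ hLκ hρ
    (by
      intro j hj
      rw [Finset.mem_Icc] at hj
      rw [norm_au' σ ε N hprim]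
      have : T ^ j ≤ T ^ 2 := pow_le_pow_of_le_one hT0.le hT1.le hj.1
      nlinarith)
    (by
      intro j hj hj2
      rw [Finset.mem_Icc] at hj hj2
      have hj1 : j = 1 := by omega
      rw [norm_au' σ ε N hprim, hj1, pow_one]
      rw [lt_div_iff₀ (by linarith)] at hR2
      linarith)
    (Finset.Icc_subset_Icc (by norm_num) le_rfl) s hs hsn
  refine ⟨γ, fun k hk j hj1 hj2 => ?_⟩
  rw [regQ_clsS]
  exact hγ k hk j hj1 hj2

end Loops

/-- The curve `f(x) (1 - y ^ n) = 1` has `r` independent classes (see `IndepClasses`). -/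
def HasClasses {K : Type*} [Field K] (f : K[X]) (n r : ℕ) : Prop :=
  ∃ _ : Fact (Irreducible (spoly f n)), IndepClasses (AdjoinRoot (spoly f n)) r

theorem mainS {K : Type*} [Field K] [NumberField K] (ε : (𝓞 K)ˣ) (hε : ¬ IsOfFinOrder ε) {m n : ℕ}
    (hm2 : 2 ≤ m) (hn2 : 2 ≤ n) (ζ : K) (hζ : IsPrimitiveRoot ζ n) :
    ∀ᶠ N : ℕ in Filter.atTop,
      Squarefree (fpoly (au (toK ε) N) m * (fpoly (au (toK ε) N) m - 1)) ∧
      HasClasses (fpoly (au (toK ε) N) m) n (m * (n - 1)) := by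
  have hm : m ≠ 0 := by omega
  have hn : n ≠ 0 := by omega
  have hm0 : NeZero m := ⟨hm⟩
  obtain ⟨z, hzζ⟩ : ∃ z : Kˣ, (z : K) = ζ := ⟨(hζ.isUnit hn).unit, rfl⟩
  have hz : z ^ n = 1 := by
    apply Units.ext
    rw [Units.val_pow_eq_pow_val, hzζ, hζ.pow_eq_one, Units.val_one]
  have hprim : ∀ i, ¬ n ∣ i → z ^ i ≠ 1 := by
    intro i hi h
    apply hi
    apply hζ.dvd_of_pow_eq_one
    rw [← hzζ, ← Units.val_pow_eq_pow_val, h, Units.val_one]
  obtain ⟨σ, hσ⟩ := exists_embeddings ε hε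
  obtain ⟨σ', hσ'⟩ := exists_embeddings' ε hε
  obtain ⟨κ, hκ0, hκ⟩ := exists_kappa n hn
  set L : ℝ := max 8 (6 / κ) with hLdef
  have hL : 8 ≤ L := le_max_left _ _
  have hLκ : 6 / κ ≤ L := le_max_right _ _
  set e : Kˣ := toK ε with he
  have hpos' : 0 < ‖σ' (e : K)‖ := norm_pos_iff.2 (sigma_ne σ' e)
  set ℓ := Real.log ‖σ (e : K)‖ with hℓ
  set ℓ' := Real.log ‖σ' (e : K)‖ with hℓ'
  have hℓ0 : ℓ ≠ 0 := (Real.log_pos hσ).ne'
  have hℓ'0 : ℓ' ≠ 0 := (Real.log_neg hpos' hσ').ne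
  set D : Matrix (Fin m × Fin (n - 1)) (Fin m × Fin (n - 1)) ℝ :=
    MinfS m ℓ ℓ' ⊗ₖ (1 : Matrix (Fin (n - 1)) (Fin (n - 1)) ℝ) with hDdef
  have hD : D.det ≠ 0 := by
    rw [hDdef, Matrix.det_kronecker, Matrix.det_one, one_pow, mul_one]
    exact pow_ne_zero _ (det_MinfS_ne_zero hm2 hℓ0 hℓ'0)
  obtain ⟨δ, hδ, hdet⟩ := det_near' D hD
  have t1 := tendsto_pow_atTop_atTop_of_one_lt hσ
  have t2 := tendsto_pow_atTop_nhds_zero_of_lt_one hpos'.le hσ'
  set ρ := L * Real.exp m with hρ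
  have hρpos : 0 < ρ := by positivity
  have hCSpos : 0 ≤ CS m n κ := by
    unfold CS
    have h1 : 0 ≤ Real.log n := Real.log_nonneg (by exact_mod_cast Nat.one_le_iff_ne_zero.2 hn)
    have h2 := abs_nonneg (Real.log κ)
    have hpi := Real.pi_pos
    positivity
  have c1 : ∀ᶠ N : ℕ in Filter.atTop, ρ ^ 2 < ‖σ (e : K)‖ ^ N := t1.eventually_gt_atTop _
  have c2 : ∀ᶠ N : ℕ in Filter.atTop, ρ ^ 2 * ‖σ' (e : K)‖ ^ N < 1 := by
    have : Filter.Tendsto (fun N : ℕ => ρ ^ 2 * ‖σ' (e : K)‖ ^ N) Filter.atTop (nhds (ρ ^ 2 * 0)) := t2.const_mul _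
    rw [mul_zero] at this
    exact this.eventually_lt_const zero_lt_one
  have c3 : ∀ᶠ N : ℕ in Filter.atTop, (16 * ((m : ℝ) + 2)) ^ 2 ≤ ‖σ (e : K)‖ ^ N := t1.eventually_ge_atTop _
  have c4 : ∀ᶠ N : ℕ in Filter.atTop, CS m n κ / (2 * Real.pi * δ) < N :=
    tendsto_natCast_atTop_atTop.eventually_gt_atTop _
  filter_upwards [c1, c2, c3, c4] with N h1 h2 h3 h4
  have hpi := Real.pi_pos
  have hN : (0:ℝ) < N := lt_of_le_of_lt (by positivity) h4
  have hsep : ∀ i ∈ Finset.Icc 1 m, ∀ j ∈ Finset.Icc 1 m, i ≠ j →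
      (16 * ((m : ℝ) + 2)) ^ 2 * ‖σ (au e N i)‖ ≤ ‖σ (au e N j)‖ ∨
      (16 * ((m : ℝ) + 2)) ^ 2 * ‖σ (au e N j)‖ ≤ ‖σ (au e N i)‖ := by
    intro i _ j _ hij
    have hT1 : 1 ≤ ‖σ (e : K)‖ ^ N := one_le_pow₀ hσ.le
    rw [norm_au, norm_au]
    rcases Nat.lt_or_gt_of_ne hij with h | h
    · left
      calc (16 * ((m : ℝ) + 2)) ^ 2 * (‖σ (e : K)‖ ^ N) ^ i ≤ ‖σ (e : K)‖ ^ N * (‖σ (e : K)‖ ^ N) ^ i := by gcongr
        _ = (‖σ (e : K)‖ ^ N) ^ (i + 1) := by rw [pow_succ]; ring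
        _ ≤ (‖σ (e : K)‖ ^ N) ^ j := pow_le_pow_right₀ hT1 h
    · right
      calc (16 * ((m : ℝ) + 2)) ^ 2 * (‖σ (e : K)‖ ^ N) ^ j ≤ ‖σ (e : K)‖ ^ N * (‖σ (e : K)‖ ^ N) ^ j := by gcongr
        _ = (‖σ (e : K)‖ ^ N) ^ (j + 1) := by rw [pow_succ]; ring
        _ ≤ (‖σ (e : K)‖ ^ N) ^ i := pow_le_pow_right₀ hT1 h
  have hdist : ∀ j ∈ Finset.Icc 1 m, j ≠ 1 → au e N j ≠ au e N 1 := by
    intro j hj hj1 h
    have h1m : (1:ℕ) ∈ Finset.Icc 1 m := Finset.mem_Icc.2 ⟨le_rfl, by omega⟩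
    have hp : 0 < ‖σ (au e N 1 : K)‖ := norm_pos_iff.2 (sigma_ne σ _)
    have hbig : 1 < (16 * ((m : ℝ) + 2)) ^ 2 := by
      have : (0:ℝ) ≤ m := by positivity
      nlinarith
    have hlt : ‖σ (au e N 1 : K)‖ < (16 * ((m : ℝ) + 2)) ^ 2 * ‖σ (au e N 1 : K)‖ := by nlinarith
    rcases hsep j hj 1 h1m hj1 with h5 | h5
    · rw [h] at h5; linarith
    · rw [h] at h5; linarith
  have hirr : Irreducible (spoly (fpoly (au e N) m) n) :=
    irreducible_spoly_fpoly (au e N) (by omega) hn hdist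
  have hI : Fact (Irreducible (spoly (fpoly (au e N) m) n)) := ⟨hirr⟩
  refine ⟨squarefree_mul_sub_one σ (au e N) m (by omega) le_rfl hsep, hI, ?_⟩
  -- the loops
  have hex : ∀ p : Fin m × Fin (n - 1), ∃ γ : Loop (FS (au e N) m n), ∀ q : Fin m × Fin (n - 1),
      |γ.regQ (clsS hm hn e N hz (q.1 + 1) (q.2 + 1)) - 2 * Real.pi * N * D p q| ≤ CS m n κ := by
    rintro ⟨i, s⟩
    have hs1 : 1 ≤ (s : ℕ) + 1 := by omega
    have hsn : (s : ℕ) + 1 < n := by have := s.isLt; omega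
    have hDval : ∀ q : Fin m × Fin (n - 1), D (i, s) q = (if (i : ℕ) + 1 < m then ℓ else ℓ') *
        (if (q.2 : ℕ) + 1 = (s : ℕ) + 1 then nu (Jset m i) (q.1 + 1) else 0) := by
      intro q
      rw [hDdef, Matrix.kroneckerMap_apply, Matrix.one_apply]
      unfold MinfS
      rw [Matrix.of_apply]
      by_cases hsq : s = q.2
      · have h6 : (q.2 : ℕ) + 1 = (s : ℕ) + 1 := by rw [hsq]
        rw [if_pos hsq, if_pos h6, mul_one]
      · have h6 : ¬ ((q.2 : ℕ) + 1 = (s : ℕ) + 1) := fun h => hsq (Fin.ext (by omega))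
        rw [if_neg hsq, if_neg h6, mul_zero, mul_zero]
    by_cases hi : (i : ℕ) + 1 < m
    · obtain ⟨γ, hγ⟩ := loopS_one σ hm hn e N hz hprim hL hκ0 hκ hLκ (ρ := ρ) le_rfl h1 (i + 1) (by omega) hi
        (s + 1) hs1 hsn
      refine ⟨γ, fun q => ?_⟩
      have h5 := hγ (q.1 + 1) (Finset.mem_Icc.2 ⟨by omega, by have := q.1.isLt; omega⟩) (q.2 + 1) (by omega)
        (by have := q.2.isLt; omega)
      rw [hDval, if_pos hi]
      unfold Jset
      rw [if_pos hi]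
      convert h5 using 3
      rw [← hℓ]
      ring
    · obtain ⟨γ, hγ⟩ := loopS_two σ' hm hn e N hz hprim hL hκ0 hκ hLκ (ρ := ρ) le_rfl h2 hm2 (s + 1) hs1 hsn
      refine ⟨γ, fun q => ?_⟩
      have h5 := hγ (q.1 + 1) (Finset.mem_Icc.2 ⟨by omega, by have := q.1.isLt; omega⟩) (q.2 + 1) (by omega)
        (by have := q.2.isLt; omega)
      rw [hDval, if_neg hi]
      unfold Jset
      rw [if_neg hi]
      convert h5 using 3
      rw [← hℓ']
      ring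
  choose γ hγ using hex
  set M : Matrix (Fin m × Fin (n - 1)) (Fin m × Fin (n - 1)) ℝ :=
    Matrix.of fun p q => (γ p).regQ (clsS hm hn e N hz (q.1 + 1) (q.2 + 1)) with hM
  have hMdet : M.det ≠ 0 := by
    set c : ℝ := (2 * Real.pi * N)⁻¹ with hc
    have hcpos : 0 < c := by positivity
    have hA : (c • M).det ≠ 0 := by
      apply hdet
      intro p q
      have h5 := hγ p q
      have e1 : (c • M) p q - D p q =
          c * ((γ p).regQ (clsS hm hn e N hz (q.1 + 1) (q.2 + 1)) - 2 * Real.pi * N * D p q) := by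
        simp only [hM, Matrix.smul_apply, Matrix.of_apply, smul_eq_mul]
        rw [mul_sub, hc]
        field_simp
      rw [e1, abs_mul, abs_of_pos hcpos]
      calc c * |(γ p).regQ (clsS hm hn e N hz (q.1 + 1) (q.2 + 1)) - 2 * Real.pi * N * D p q| ≤ c * CS m n κ := by
            gcongr
        _ < δ := by
            rw [hc, inv_mul_eq_div, div_lt_iff₀ (by positivity)]
            rw [div_lt_iff₀ (by positivity)] at h4
            linarith
    intro h0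
    apply hA
    rw [Matrix.det_smul, h0, mul_zero]
  -- reindexing
  set eq : Fin m × Fin (n - 1) ≃ Fin (m * (n - 1)) := finProdFinEquiv with heq
  refine indepClasses_of_det (fun i => γ (eq.symm i))
    (fun i => clsS hm hn e N hz ((eq.symm i).1 + 1) ((eq.symm i).2 + 1)) ?_ ?_
  · intro i
    apply clsS_mem hm hn e N hz
    · exact (ε : 𝓞 K).isIntegral_coe
    · have : ((e⁻¹ : Kˣ) : K) = ((ε⁻¹ : (𝓞 K)ˣ) : 𝓞 K) := by
        rw [he]
        unfold toK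
        rw [← map_inv]
        rfl
      rw [this]
      exact RingOfIntegers.isIntegral_coe _
    · exact Finset.mem_Icc.2 ⟨by omega, by have := (eq.symm i).1.isLt; omega⟩
  · have h5 : (Matrix.of fun i j : Fin (m * (n - 1)) => (γ (eq.symm i)).regQ
        (clsS hm hn e N hz ((eq.symm j).1 + 1) ((eq.symm j).2 + 1))) = M.submatrix eq.symm eq.symm := by
      ext i j
      rfl
    rw [h5, Matrix.det_submatrix_equiv_self]
    exact hMdet

end Pool.Agent.W367.KS
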